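import Pool.Agent.SCC.Graph

/-! Local lower bound and counting. -/

set_option autoImplicit false

namespace Pool.Agent.SCC

section pv
variable {I : Type*} [DecidableEq I]

theorem pv1 {a b : I} (h : a ≠ b) : Holds PV [{a}, {b}, {a, b}] := by
  refine ⟨_, List.mem_cons_self .., fun z => if z = 0 then a else b, ?_, ?_⟩
  · simp [den]
  · intro d hd
    simp only [List.mem_singleton] at hd
    subst hd
    simpa using h

theorem pv2 {a b : I} (h : a ≠ b) : Holds PV [{a}, {a, b}, {b}] := by
  refine ⟨_, List.mem_cons_of_mem _ (List.mem_cons_self ..), fun z => if z = 0 then a else b, ?_, ?_⟩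
  · simp [den]
  · intro d hd
    simp only [List.mem_singleton] at hd
    subst hd
    simpa using h

theorem pv3 {a b : I} (h : a ≠ b) : Holds PV [{a, b}, {a}, {b}] := by
  refine ⟨_, List.mem_cons_of_mem _ (List.mem_cons_of_mem _ (List.mem_cons_self ..)),
    fun z => if z = 0 then a else b, ?_, ?_⟩
  · simp [den]
  · intro d hd
    simp only [List.mem_singleton] at hd
    subst hd
    simpa using h

/-- three label sets at a vertex, every colour occurring an even number of times -/
theorem three_sets {A B C : Finset I} (hA : A.Nonempty) (hB : B.Nonempty) (hC : C.Nonempty)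
    (h : C = symmDiff A B) :
    A.card + B.card + C.card = 2 * (A ∪ B).card ∧ 2 ≤ (A ∪ B).card ∧
      ((A ∪ B).card = 2 → Holds PV [A, B, C]) := by
  have h1 : A.card + B.card + C.card = 2 * (A ∪ B).card := by
    have e1 := Finset.card_union_add_card_inter A B
    have e2 : C.card + (A ∩ B).card = (A ∪ B).card := by
      have h3 : C = (A ∪ B) \ (A ∩ B) := by
        rw [h]; exact symmDiff_eq_sup_sdiff_inf A B
      rw [h3]
      exact Finset.card_sdiff_add_card_eq_card (fun x hx => by
        simp only [Finset.mem_inter, Finset.mem_union] at *; exact Or.inl hx.1)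
    omega
  have a1 := hA.card_pos
  have b1 := hB.card_pos
  have c1 := hC.card_pos
  have ea : A.card ≤ (A ∪ B).card := Finset.card_le_card Finset.subset_union_left
  have eb : B.card ≤ (A ∪ B).card := Finset.card_le_card Finset.subset_union_right
  refine ⟨h1, by omega, ?_⟩
  intro h2
  -- cards are (1,1,2), (1,2,1), (2,1,1)
  have hab : ∃ a b, a ≠ b ∧ A ∪ B = {a, b} := Finset.card_eq_two.1 h2
  obtain ⟨x, y, hxy, hu⟩ := hab
  have hsubA : A ⊆ {x, y} := by rw [← hu]; exact Finset.subset_union_left
  have hsubB : B ⊆ {x, y} := by rw [← hu]; exact Finset.subset_union_right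
  have key : ∀ D : Finset I, D ⊆ {x, y} → D.Nonempty → D = {x} ∨ D = {y} ∨ D = {x, y} := by
    intro D hD hne
    by_cases hx : x ∈ D
    · by_cases hy : y ∈ D
      · right; right
        apply Finset.Subset.antisymm hD
        intro z hz
        simp only [Finset.mem_insert, Finset.mem_singleton] at hz
        rcases hz with rfl | rfl <;> assumption
      · left
        ext z
        constructor
        · intro hz
          have := hD hz
          simp only [Finset.mem_insert, Finset.mem_singleton] at this ⊢
          rcases this with rfl | rfl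
          · rfl
          · exact absurd hz hy
        · intro hz
          simp only [Finset.mem_singleton] at hz
          subst hz; exact hx
    · right; left
      ext z
      constructor
      · intro hz
        have := hD hz
        simp only [Finset.mem_insert, Finset.mem_singleton] at this ⊢
        rcases this with rfl | rfl
        · exact absurd hz hx
        · rfl
      · intro hz
        simp only [Finset.mem_singleton] at hz
        subst hz
        obtain ⟨w, hw⟩ := hne
        have := hD hw
        simp only [Finset.mem_insert, Finset.mem_singleton] at this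
        rcases this with rfl | rfl
        · exact absurd hw hx
        · exact hw
  have hyx := hxy.symm
  rcases key A hsubA hA with rfl | rfl | rfl
  · rcases key B hsubB hB with rfl | rfl | rfl
    · exfalso; rw [symmDiff_self] at h; rw [h] at hC; simp at hC
    · have : C = {x, y} := by
        rw [h]; ext z; simp only [Finset.mem_symmDiff, Finset.mem_singleton, Finset.mem_insert]
        constructor
        · rintro (⟨h1, -⟩ | ⟨h1, -⟩) <;> simp [h1]
        · rintro (rfl | rfl)
          · exact Or.inl ⟨rfl, hxy⟩
          · exact Or.inr ⟨rfl, hyx⟩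
      rw [this]; exact pv1 hxy
    · have : C = {y} := by
        rw [h]; ext z; simp only [Finset.mem_symmDiff, Finset.mem_singleton, Finset.mem_insert]
        constructor
        · rintro (⟨h1, h2⟩ | ⟨h1, h2⟩)
          · exact absurd (Or.inl h1) h2
          · rcases h1 with h1 | h1
            · exact absurd h1 h2
            · exact h1
        · rintro rfl
          exact Or.inr ⟨Or.inr rfl, hyx⟩
      rw [this]; exact pv2 hxy
  · rcases key B hsubB hB with rfl | rfl | rfl
    · have : C = {y, x} := by
        rw [h]; ext z; simp only [Finset.mem_symmDiff, Finset.mem_singleton, Finset.mem_insert]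
        constructor
        · rintro (⟨h1, -⟩ | ⟨h1, -⟩) <;> simp [h1]
        · rintro (rfl | rfl)
          · exact Or.inl ⟨rfl, hyx⟩
          · exact Or.inr ⟨rfl, hxy⟩
      rw [this]; exact pv1 hyx
    · exfalso; rw [symmDiff_self] at h; rw [h] at hC; simp at hC
    · have : C = {x} := by
        rw [h]; ext z; simp only [Finset.mem_symmDiff, Finset.mem_singleton, Finset.mem_insert]
        constructor
        · rintro (⟨h1, h2⟩ | ⟨h1, h2⟩)
          · exact absurd (Or.inr h1) h2
          · rcases h1 with h1 | h1
            · exact h1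
            · exact absurd h1 h2
        · rintro rfl
          exact Or.inr ⟨Or.inl rfl, hxy⟩
      rw [this, Finset.pair_comm x y]; exact pv2 hyx
  · rcases key B hsubB hB with rfl | rfl | rfl
    · have : C = {y} := by
        rw [h]; ext z; simp only [Finset.mem_symmDiff, Finset.mem_singleton, Finset.mem_insert]
        constructor
        · rintro (⟨h1, h2⟩ | ⟨h1, h2⟩)
          · rcases h1 with h1 | h1
            · exact absurd h1 h2
            · exact h1
          · exact absurd (Or.inl h1) h2
        · rintro rfl
          exact Or.inl ⟨Or.inr rfl, hyx⟩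
      rw [this]; exact pv3 hxy
    · have : C = {x} := by
        rw [h]; ext z; simp only [Finset.mem_symmDiff, Finset.mem_singleton, Finset.mem_insert]
        constructor
        · rintro (⟨h1, h2⟩ | ⟨h1, h2⟩)
          · rcases h1 with h1 | h1
            · exact h1
            · exact absurd h1 h2
          · exact absurd (Or.inr h1) h2
        · rintro rfl
          exact Or.inl ⟨Or.inl rfl, hxy⟩
      rw [this, Finset.pair_comm x y]; exact pv3 hyx
    · exfalso; rw [symmDiff_self] at h; rw [h] at hC; simp at hC

end pv

/-! ### half blocks -/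

section half
variable {I : Type*} [DecidableEq I] {n : ℕ}

/-- label of the dart with number `m` in block `i` -/
def lf (lab : VG n → Fin 3 → Finset I) (i : ZMod (n + 1)) (m : ℕ) : Finset I :=
  lab (i, ⟨m / 3 % 118, Nat.mod_lt _ (by norm_num)⟩) ⟨m % 3, Nat.mod_lt _ (by norm_num)⟩

theorem lf_ob (lab : VG n → Fin 3 → Finset I) (hopp : ∀ v t, lab (nbr v t) (opt v t) = lab v t)
    (i : ZMod (n + 1)) (m : ℕ) (hm : m < 354) (hs : sn m = 0) :
    lf lab i (ob m) = lf lab i m := by
  have h := hopp (i, ⟨m / 3 % 118, Nat.mod_lt _ (by norm_num)⟩) ⟨m % 3, Nat.mod_lt _ (by norm_num)⟩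
  have hd : dn (n := n) (i, ⟨m / 3 % 118, Nat.mod_lt _ (by norm_num)⟩)
      ⟨m % 3, Nat.mod_lt _ (by norm_num)⟩ = m := by
    unfold dn
    simp only
    omega
  have e1 : nbr (n := n) (i, ⟨m / 3 % 118, Nat.mod_lt _ (by norm_num)⟩)
      ⟨m % 3, Nat.mod_lt _ (by norm_num)⟩ = (i, ⟨ob m / 3 % 118, Nat.mod_lt _ (by norm_num)⟩) := by
    unfold nbr
    rw [hd, hs]
    refine Prod.ext ?_ rfl
    simp [shz]
  have e2 : opt (n := n) (i, ⟨m / 3 % 118, Nat.mod_lt _ (by norm_num)⟩)
      ⟨m % 3, Nat.mod_lt _ (by norm_num)⟩ = ⟨ob m % 3, Nat.mod_lt _ (by norm_num)⟩ := by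
    apply Fin.ext
    unfold opt
    simp only [hd]
  rw [e1, e2] at h
  exact h

theorem half_tab : allB (fun h => allB (fun d => opp d == d ||
    (ob (177 * h + d) == 177 * h + opp d && sn (177 * h + d) == 0)) 177) 2 = true := by
  decide +kernel

theorem half_block (lab : VG n → Fin 3 → Finset I)
    (hopp : ∀ v t, lab (nbr v t) (opt v t) = lab v t) (c : I) (i : ZMod (n + 1)) (h : ℕ)
    (hh : h < 2) (hV : ∀ a : Fin 118, 59 * h ≤ a.val → a.val < 59 * h + 59 →
      Holds PV [lab (i, a) 0, lab (i, a) 1, lab (i, a) 2]) : False := by
  refine half_false (fun d => lf lab i (177 * h + d)) c ?_ ?_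
  · intro x hx
    have := hV ⟨59 * h + x, by omega⟩ (by simp) (by simp; omega)
    have e : ∀ t : ℕ, t < 3 → (177 * h + (3 * x + t)) / 3 % 118 = 59 * h + x ∧
        (177 * h + (3 * x + t)) % 3 = t := by
      intro t ht
      constructor <;> omega
    have e0 : lf lab i (177 * h + 3 * x) = lab (i, ⟨59 * h + x, by omega⟩) 0 := by
      unfold lf
      have := e 0 (by norm_num)
      simp only [Nat.add_zero] at this
      congr 1
      · exact Prod.ext rfl (Fin.ext this.1)
      · exact Fin.ext this.2
    have e1 : lf lab i (177 * h + (3 * x + 1)) = lab (i, ⟨59 * h + x, by omega⟩) 1 := by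
      unfold lf
      have := e 1 (by norm_num)
      congr 1
      · exact Prod.ext rfl (Fin.ext this.1)
      · exact Fin.ext this.2
    have e2 : lf lab i (177 * h + (3 * x + 2)) = lab (i, ⟨59 * h + x, by omega⟩) 2 := by
      unfold lf
      have := e 2 (by norm_num)
      congr 1
      · exact Prod.ext rfl (Fin.ext this.1)
      · exact Fin.ext this.2
    simp only [e0, e1, e2]
    exact this
  · intro d hd
    have h1 := allB_sound (allB_sound half_tab h hh) d hd
    simp only [Bool.or_eq_true, Bool.and_eq_true, beq_iff_eq] at h1
    show lf lab i (177 * h + opp d) = lf lab i (177 * h + d)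
    rcases h1 with h1 | ⟨h1, h2⟩
    · rw [h1]
    · rw [← h1]
      exact lf_ob lab hopp i _ (by omega) h2

end half

end Pool.Agent.SCC
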