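import Pool.Agent.SCC.Count

/-! The lower bound for the length of a cover by even subgraphs. -/

set_option autoImplicit false

namespace Pool.Agent.SCC

variable {n k : ℕ}

/-- colours of the dart `(v,t)` -/
def lab (C : Fin k → Finset (Sym2 (VG n))) (v : VG n) (t : Fin 3) : Finset (Fin k) :=
  Finset.univ.filter fun c => s(v, nbr v t) ∈ C c

theorem mem_lab (C : Fin k → Finset (Sym2 (VG n))) (v : VG n) (t : Fin 3) (c : Fin k) :
    c ∈ lab C v t ↔ s(v, nbr v t) ∈ C c := by
  simp [lab]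

theorem lab_opp (C : Fin k → Finset (Sym2 (VG n))) (v : VG n) (t : Fin 3) :
    lab C (nbr v t) (opt v t) = lab C v t := by
  unfold lab
  rw [nbr_nbr, Sym2.eq_swap]

/-- number of darts at `v` of colour `c` -/
def cnt (C : Fin k → Finset (Sym2 (VG n))) (v : VG n) (c : Fin k) : ℕ :=
  (Finset.univ.filter fun t : Fin 3 => s(v, nbr v t) ∈ C c).card

theorem filter_card (C : Fin k → Finset (Sym2 (VG n))) (hsub : ∀ c, C c ⊆ (GG n).edgeFinset)
    (v : VG n) (c : Fin k) : ((C c).filter (fun e => v ∈ e)).card = cnt C v c := by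
  unfold cnt
  rw [← Finset.card_image_of_injective (f := fun t => s(v, nbr v t))
    (Finset.univ.filter fun t : Fin 3 => s(v, nbr v t) ∈ C c)]
  · congr 1
    ext e
    simp only [Finset.mem_filter, Finset.mem_image, Finset.mem_univ, true_and]
    constructor
    · rintro ⟨he, hv⟩
      obtain ⟨w, rfl⟩ := hv
      have h1 := hsub c he
      rw [SimpleGraph.mem_edgeFinset, SimpleGraph.mem_edgeSet] at h1
      obtain ⟨t, ht⟩ := h1
      refine ⟨t, ?_, ?_⟩
      · rw [ht]; exact he
      · rw [ht]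
    · rintro ⟨t, ht, rfl⟩
      exact ⟨ht, Sym2.mem_mk_left _ _⟩
  · intro s t h
    simp only at h
    exact nbr_inj v (Sym2.congr_right.1 h)

theorem cnt_eq (C : Fin k → Finset (Sym2 (VG n))) (v : VG n) (c : Fin k) :
    cnt C v c = (if c ∈ lab C v 0 then 1 else 0) + (if c ∈ lab C v 1 then 1 else 0) +
      (if c ∈ lab C v 2 then 1 else 0) := by
  unfold cnt
  rw [Finset.card_filter, Fin.sum_univ_three]
  simp only [mem_lab]

theorem lab_symm (C : Fin k → Finset (Sym2 (VG n))) (hsub : ∀ c, C c ⊆ (GG n).edgeFinset)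
    (hev : ∀ c, ∀ v : VG n, Even ((C c).filter (fun e => v ∈ e)).card) (v : VG n) :
    lab C v 2 = symmDiff (lab C v 0) (lab C v 1) := by
  ext c
  have h := hev c v
  rw [filter_card C hsub, cnt_eq] at h
  rw [Finset.mem_symmDiff]
  by_cases h0 : c ∈ lab C v 0 <;> by_cases h1 : c ∈ lab C v 1 <;> by_cases h2 : c ∈ lab C v 2 <;>
    first | (simp [h0, h1, h2] at h ⊢; done) | (simp [h0, h1, h2] at h ⊢; revert h; decide)

/-- total number of colours at `v` -/
def wt (C : Fin k → Finset (Sym2 (VG n))) (v : VG n) : ℕ :=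
  (lab C v 0).card + (lab C v 1).card + (lab C v 2).card

theorem wt_eq (C : Fin k → Finset (Sym2 (VG n))) (v : VG n) : wt C v = ∑ c, cnt C v c := by
  unfold wt
  simp only [cnt_eq, Finset.sum_add_distrib]
  simp only [Finset.sum_ite_mem, Finset.univ_inter, Finset.sum_const, smul_eq_mul, mul_one]

theorem two_ends (e : Sym2 (VG n)) (he : e ∈ (GG n).edgeFinset) :
    (∑ v : VG n, if v ∈ e then 1 else 0) = 2 := by
  induction e using Sym2.ind with
  | _ a b =>
    rw [SimpleGraph.mem_edgeFinset, SimpleGraph.mem_edgeSet] at he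
    have hab : a ≠ b := he.ne
    rw [← Finset.card_filter]
    have : (Finset.univ.filter fun v : VG n => v ∈ s(a, b)) = {a, b} := by
      ext v
      simp
    rw [this, Finset.card_pair hab]

theorem sum_wt (C : Fin k → Finset (Sym2 (VG n))) (hsub : ∀ c, C c ⊆ (GG n).edgeFinset) :
    ∑ v, wt C v = 2 * ∑ c, (C c).card := by
  simp only [wt_eq]
  rw [Finset.sum_comm, Finset.mul_sum]
  apply Finset.sum_congr rfl
  intro c _
  simp only [← filter_card C hsub, Finset.card_filter]
  rw [Finset.sum_comm, Finset.sum_congr rfl (fun e he => two_ends e (hsub c he))]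
  simp [mul_comm]

theorem wt_facts (C : Fin k → Finset (Sym2 (VG n))) (hsub : ∀ c, C c ⊆ (GG n).edgeFinset)
    (hev : ∀ c, ∀ v : VG n, Even ((C c).filter (fun e => v ∈ e)).card)
    (hcov : ∀ e ∈ (GG n).edgeFinset, ∃ c, e ∈ C c) (v : VG n) :
    4 ≤ wt C v ∧ (wt C v < 6 → Holds PV [lab C v 0, lab C v 1, lab C v 2]) := by
  have hne : ∀ t, (lab C v t).Nonempty := by
    intro t
    obtain ⟨c, hc⟩ := hcov s(v, nbr v t) (by
      rw [SimpleGraph.mem_edgeFinset, SimpleGraph.mem_edgeSet]; exact adj_nbr v t)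
    exact ⟨c, (mem_lab C v t c).2 hc⟩
  obtain ⟨h1, h2, h3⟩ := three_sets (hne 0) (hne 1) (hne 2) (lab_symm C hsub hev v)
  unfold wt
  refine ⟨by omega, fun h => h3 (by omega)⟩

theorem heavy (C : Fin k → Finset (Sym2 (VG n))) (hsub : ∀ c, C c ⊆ (GG n).edgeFinset)
    (hev : ∀ c, ∀ v : VG n, Even ((C c).filter (fun e => v ∈ e)).card)
    (hcov : ∀ e ∈ (GG n).edgeFinset, ∃ c, e ∈ C c) (i : ZMod (n + 1)) (h : ℕ) (hh : h < 2) :
    ∃ a : Fin 118, 59 * h ≤ a.val ∧ a.val < 59 * h + 59 ∧ 6 ≤ wt C (i, a) := by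
  by_contra hcon
  push Not at hcon
  obtain ⟨c, -⟩ := hcov s((i, 0), nbr (i, 0) 0) (by
      rw [SimpleGraph.mem_edgeFinset, SimpleGraph.mem_edgeSet]; exact adj_nbr _ _)
  refine half_block (lab C) (lab_opp C) c i h hh ?_
  intro a h1 h2
  exact (wt_facts C hsub hev hcov (i, a)).2 (hcon a h1 h2)

theorem sum_lower (C : Fin k → Finset (Sym2 (VG n))) (hsub : ∀ c, C c ⊆ (GG n).edgeFinset)
    (hev : ∀ c, ∀ v : VG n, Even ((C c).filter (fun e => v ∈ e)).card)
    (hcov : ∀ e ∈ (GG n).edgeFinset, ∃ c, e ∈ C c) :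
    238 * (n + 1) ≤ ∑ c, (C c).card := by
  have hb : ∀ i : ZMod (n + 1), 476 ≤ ∑ a : Fin 118, wt C (i, a) := by
    intro i
    obtain ⟨a, ha1, ha2, ha3⟩ := heavy C hsub hev hcov i 0 (by norm_num)
    obtain ⟨b, hb1, hb2, hb3⟩ := heavy C hsub hev hcov i 1 (by norm_num)
    have hab : a ≠ b := by
      intro h; subst h; omega
    have hle : ∀ x : Fin 118, 4 + (if x = a then 2 else 0) + (if x = b then 2 else 0) ≤ wt C (i, x) := by
      intro x
      have := (wt_facts C hsub hev hcov (i, x)).1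
      by_cases h1 : x = a
      · by_cases h2 : x = b
        · exact absurd (h1.symm.trans h2) hab
        · subst h1; rw [if_pos rfl, if_neg h2]; omega
      · by_cases h2 : x = b
        · subst h2; rw [if_neg h1, if_pos rfl]; omega
        · rw [if_neg h1, if_neg h2]; omega
    calc 476 = ∑ x : Fin 118, (4 + (if x = a then 2 else 0) + (if x = b then 2 else 0)) := by
          simp [Finset.sum_add_distrib]
      _ ≤ _ := Finset.sum_le_sum (fun x _ => hle x)
  have h1 : 476 * (n + 1) ≤ ∑ v, wt C v := by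
    rw [Fintype.sum_prod_type]
    calc 476 * (n + 1) = ∑ _i : ZMod (n + 1), 476 := by simp [ZMod.card, mul_comm]
      _ ≤ _ := Finset.sum_le_sum (fun i _ => hb i)
  rw [sum_wt C hsub] at h1
  omega

theorem card_edges : (GG n).edgeFinset.card = 177 * (n + 1) := by
  have h := (GG n).sum_degrees_eq_twice_card_edges
  have h2 : ∀ v, (GG n).degree v = 3 := fun v => regular v
  simp only [h2, Finset.sum_const, Finset.card_univ, Fintype.card_prod, Fintype.card_fin,
    ZMod.card, smul_eq_mul] at h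
  omega

/-- no proper edge colouring with three colours -/
theorem not_colorable : ¬ (GG n).lineGraph.Colorable 3 := by
  rintro ⟨f⟩
  have key : ∀ x y z : Fin 3, x ≠ y → x ≠ z → y ≠ z →
      Holds PV [(![{0}, {1}, {0, 1}] : Fin 3 → Finset (Fin 2)) x, (![{0}, {1}, {0, 1}] : Fin 3 → Finset (Fin 2)) y,
        (![{0}, {1}, {0, 1}] : Fin 3 → Finset (Fin 2)) z] := by
    have h01 : (0 : Fin 2) ≠ 1 := by decide
    have h10 : (1 : Fin 2) ≠ 0 := by decide
    intro x y z hxy hxz hyz
    fin_cases x <;> fin_cases y <;> fin_cases z <;> first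
      | exact absurd rfl hxy
      | exact absurd rfl hxz
      | exact absurd rfl hyz
      | exact pv1 h01
      | exact pv2 h01
      | exact pv3 h01
      | (have := pv1 h10; rwa [Finset.pair_comm] at this)
      | (have := pv2 h10; rwa [Finset.pair_comm] at this)
      | (have := pv3 h10; rwa [Finset.pair_comm] at this)
  have hmem : ∀ (v : VG n) (t : Fin 3), s(v, nbr v t) ∈ (GG n).edgeSet := fun v t => adj_nbr v t
  refine half_block (I := Fin 2)
    (fun v t => (![{0}, {1}, {0, 1}] : Fin 3 → Finset (Fin 2)) (f ⟨s(v, nbr v t), hmem v t⟩)) ?_ 0 (0 : ZMod (n + 1)) 0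
    (by norm_num) ?_
  · intro v t
    have e : (⟨s(nbr v t, nbr (nbr v t) (opt v t)), hmem _ _⟩ : (GG n).edgeSet) =
        ⟨s(v, nbr v t), hmem v t⟩ := by
      apply Subtype.ext
      show s(nbr v t, nbr (nbr v t) (opt v t)) = s(v, nbr v t)
      rw [nbr_nbr, Sym2.eq_swap]
    simp only [e]
  · intro a _ _
    have hne : ∀ s t : Fin 3, s ≠ t → f ⟨s(((0 : ZMod (n + 1)), a), nbr (0, a) s), hmem _ s⟩ ≠
        f ⟨s(((0 : ZMod (n + 1)), a), nbr (0, a) t), hmem _ t⟩ := by
      intro s t hst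
      apply f.valid
      rw [SimpleGraph.lineGraph_adj_iff_exists]
      refine ⟨?_, ((0 : ZMod (n + 1)), a), Sym2.mem_mk_left _ _, Sym2.mem_mk_left _ _⟩
      intro h
      have h2 := congrArg Subtype.val h
      simp only at h2
      exact hst (nbr_inj _ (Sym2.congr_right.1 h2))
    exact key _ _ _ (hne 0 1 (by decide)) (hne 0 2 (by decide)) (hne 1 2 (by decide))

end Pool.Agent.SCC
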