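import Pool.Agent.SCC.CutTab

/-! Cyclic 4-edge-connectivity of the ring of blocks. -/

set_option autoImplicit false

namespace Pool.Agent.SCC

variable {n : ℕ}

def vx (i : ZMod (n + 1)) (a : ℕ) : VG n := (i, ⟨a % 118, Nat.mod_lt _ (by norm_num)⟩)

def slot (m : ℕ) : Fin 3 := ⟨m % 3, Nat.mod_lt _ (by norm_num)⟩

theorem vx_self (v : VG n) : vx v.1 v.2.val = v := by
  refine Prod.ext rfl (Fin.ext ?_)
  exact Nat.mod_eq_of_lt v.2.isLt

theorem nbr_vx (i : ZMod (n + 1)) (m : ℕ) (hm : m < 354) :
    nbr (vx i (m / 3)) (slot m) = vx (i + shz (sn m)) (ob m / 3) := by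
  have hd : dn (vx i (m / 3)) (slot m) = m := by
    unfold dn vx slot
    simp only
    omega
  unfold nbr
  rw [hd]
  rfl

theorem vx_inj {i j : ZMod (n + 1)} {a b : ℕ} (ha : a < 118) (hb : b < 118)
    (h : (vx i a : VG n) = vx j b) : i = j ∧ a = b := by
  have h1 := congrArg Prod.fst h
  have h2 := congrArg (fun v => v.2.val) h
  simp only [vx] at h1 h2
  rw [Nat.mod_eq_of_lt ha, Nat.mod_eq_of_lt hb] at h2
  exact ⟨h1, h2⟩

/-- a dart starting in `S` and ending outside -/
def cutd (S : Finset (VG n)) (i : ZMod (n + 1)) (m : ℕ) : Prop :=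
  vx i (m / 3) ∈ S ∧ vx (i + shz (sn m)) (ob m / 3) ∉ S

def QQ (S : Finset (VG n)) : ℕ :=
  (Finset.univ.filter (fun p : VG n × VG n => p.1 ∈ S ∧ p.2 ∉ S ∧ (GG n).Adj p.1 p.2)).card

theorem card_le (S : Finset (VG n)) (E : Finset (ZMod (n + 1) × ℕ))
    (hE : ∀ p ∈ E, p.2 < 354 ∧ cutd S p.1 p.2) : E.card ≤ QQ S := by
  unfold QQ
  apply Finset.card_le_card_of_injOn
    (fun p => (vx p.1 (p.2 / 3), nbr (vx p.1 (p.2 / 3)) (slot p.2)))
  · intro p hp
    have h := hE p hp
    simp only [Finset.coe_filter, Finset.mem_univ, true_and, Set.mem_ofPred_eq]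
    refine ⟨h.2.1, ?_, adj_nbr _ _⟩
    rw [nbr_vx _ _ h.1]
    exact h.2.2
  · intro p hp q hq h
    have hp1 := (hE p hp).1
    have hq1 := (hE q hq).1
    simp only [Prod.mk.injEq] at h
    obtain ⟨h1, h2⟩ := h
    obtain ⟨h3, h4⟩ := vx_inj (by omega) (by omega) h1
    rw [h1] at h2
    have h5 := nbr_inj _ h2
    have h6 : p.2 % 3 = q.2 % 3 := congrArg Fin.val h5
    exact Prod.ext h3 (by omega)

/-- two disjoint sets of two cut darts -/
theorem two_two (S : Finset (VG n)) (E F : Finset (ZMod (n + 1) × ℕ))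
    (hE : ∀ p ∈ E, p.2 < 354 ∧ cutd S p.1 p.2) (hF : ∀ p ∈ F, p.2 < 354 ∧ cutd S p.1 p.2)
    (h2 : 2 ≤ E.card) (h2' : 2 ≤ F.card) (hd : ∀ p ∈ E, p ∉ F) : 4 ≤ QQ S := by
  have h := card_le S (E ∪ F) (fun p hp => (Finset.mem_union.1 hp).elim (hE p) (hF p))
  rw [Finset.card_union_of_disjoint (Finset.disjoint_left.2 hd)] at h
  omega

/-! positions on the ring of fragments -/

def II (j : ℕ) : ZMod (n + 1) := ((j / 10 : ℕ) : ZMod (n + 1))

def Em (S : Finset (VG n)) (j : ℕ) : Prop := ∀ x < 11, vx (II j) (off (j % 10) + x) ∉ S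
def Fu (S : Finset (VG n)) (j : ℕ) : Prop := ∀ x < 11, vx (II j) (off (j % 10) + x) ∈ S

theorem off_le {c : ℕ} (hc : c < 10) : off c ≤ 104 := by
  have := allB_sound tX10 c hc
  simpa using this

theorem tv_le {w : ℕ} (hw : w < 8) : tv w ≤ 117 := by
  have := allB_sound tX11 w hw
  simpa using this

theorem off_inj {c c' d d' : ℕ} (hc : c < 10) (hc' : c' < 10) (hd : d < 33) (hd' : d' < 33)
    (h : 3 * off c + d = 3 * off c' + d') : c = c' ∧ d = d' := by
  have h1 := allB_sound (allB_sound tX8 c hc) c' hc'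
  simp only [Bool.or_eq_true, decide_eq_true_eq, beq_iff_eq] at h1
  rcases h1 with (h1 | h1) | h1
  · omega
  · omega
  · subst h1; exact ⟨rfl, by omega⟩

theorem II_succ (j : ℕ) : (II (j + 1) : ZMod (n + 1)) = II j + shz (if j % 10 = 9 then 1 else 0) := by
  unfold II
  by_cases h : j % 10 = 9
  · have : (j + 1) / 10 = j / 10 + 1 := by omega
    rw [this, if_pos h]
    simp [shz]
  · have : (j + 1) / 10 = j / 10 := by omega
    rw [this, if_neg h]
    simp [shz]

theorem II_pred (j : ℕ) : (II j : ZMod (n + 1)) = II (j + 1) + shz (if j % 10 = 9 then 2 else 0) := by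
  rw [II_succ]
  by_cases h : j % 10 = 9
  · simp [h, shz]
  · simp [h, shz]

theorem mod_succ (j : ℕ) : (j + 1) % 10 = (j % 10 + 1) % 10 := by omega

theorem II_period (j : ℕ) : (II (j + 10 * (n + 1)) : ZMod (n + 1)) = II j := by
  unfold II
  have : (j + 10 * (n + 1)) / 10 = j / 10 + (n + 1) := by omega
  rw [this]
  have h := ZMod.natCast_self (n + 1)
  push_cast at h ⊢
  rw [h, add_zero]

theorem Em_period (S : Finset (VG n)) (j : ℕ) : Em S (j + 10 * (n + 1)) ↔ Em S j := by
  unfold Em
  rw [II_period]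
  have : (j + 10 * (n + 1)) % 10 = j % 10 := by omega
  rw [this]

theorem Fu_period (S : Finset (VG n)) (j : ℕ) : Fu S (j + 10 * (n + 1)) ↔ Fu S j := by
  unfold Fu
  rw [II_period]
  have : (j + 10 * (n + 1)) % 10 = j % 10 := by omega
  rw [this]

theorem pos_inj {j j' : ℕ} (h1 : j < j') (h2 : j' < j + 10 * (n + 1))
    (h : (II j : ZMod (n + 1)) = II j') (h' : j % 10 = j' % 10) : False := by
  unfold II at h
  rw [ZMod.natCast_eq_natCast_iff'] at h
  have h3 : j' / 10 = j / 10 + (j' - j) / 10 := by omega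
  have h4 : (j' - j) / 10 < n + 1 := by omega
  have h5 : 0 < (j' - j) / 10 := by omega
  rw [h3] at h
  have h6 : (n + 1) ∣ (j / 10 + (j' - j) / 10) - j / 10 := (Nat.modEq_iff_dvd' (by omega)).1 h
  rw [Nat.add_sub_cancel_left] at h6
  exact absurd (Nat.le_of_dvd h5 h6) (by omega)

theorem pos_surj (i : ZMod (n + 1)) (c : ℕ) (hc : c < 10) :
    ∃ j, j < 10 * (n + 1) ∧ (II j : ZMod (n + 1)) = i ∧ j % 10 = c := by
  have hi := ZMod.val_lt i
  refine ⟨10 * i.val + c, by omega, ?_, by omega⟩
  unfold II
  have : (10 * i.val + c) / 10 = i.val := by omega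
  rw [this, ZMod.natCast_zmod_val]

/-- a transition between consecutive fragments gives two cut darts -/
theorem trans_two (S : Finset (VG n)) (j : ℕ)
    (h : (Fu S j ∧ Em S (j + 1)) ∨ (Em S j ∧ Fu S (j + 1))) :
    ∃ E : Finset (ZMod (n + 1) × ℕ), 2 ≤ E.card ∧ (∀ p ∈ E, p.2 < 354 ∧ cutd S p.1 p.2) ∧
      ((∀ p ∈ E, ∃ d, (d = 2 ∨ d = 14) ∧ p = (II j, 3 * off (j % 10) + d)) ∨
        (∀ p ∈ E, ∃ d, (d = 26 ∨ d = 29) ∧ p = (II (j + 1), 3 * off ((j + 1) % 10) + d))) := by
  have hc : j % 10 < 10 := Nat.mod_lt _ (by norm_num)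
  have hc' : (j + 1) % 10 < 10 := Nat.mod_lt _ (by norm_num)
  have t := allB_sound tX2 (j % 10) hc
  simp only [Bool.and_eq_true, beq_iff_eq] at t
  obtain ⟨⟨⟨⟨⟨⟨⟨t1, t2⟩, t3⟩, t4⟩, t5⟩, t6⟩, t7⟩, t8⟩ := t
  rw [← mod_succ] at t1 t2 t5 t6 t7 t8
  have o1 := off_le hc
  have o2 := off_le hc'
  rcases h with ⟨hf, he⟩ | ⟨he, hf⟩
  · refine ⟨{(II j, 3 * off (j % 10) + 2), (II j, 3 * off (j % 10) + 14)}, ?_, ?_, Or.inl ?_⟩
    · rw [Finset.card_pair]
      intro h
      have := congrArg Prod.snd h
      simp only at this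
      omega
    · intro p hp
      simp only [Finset.mem_insert, Finset.mem_singleton] at hp
      rcases hp with rfl | rfl
      · refine ⟨by simp only; omega, ?_, ?_⟩
        · have e : (3 * off (j % 10) + 2) / 3 = off (j % 10) + 0 := by omega
          simp only [e]
          exact hf 0 (by norm_num)
        · simp only [t1]
          rw [t3, ← II_succ]
          exact he 9 (by norm_num)
      · refine ⟨by simp only; omega, ?_, ?_⟩
        · have e : (3 * off (j % 10) + 14) / 3 = off (j % 10) + 4 := by omega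
          simp only [e]
          exact hf 4 (by norm_num)
        · simp only [t2]
          rw [t4, ← II_succ]
          exact he 8 (by norm_num)
    · intro p hp
      simp only [Finset.mem_insert, Finset.mem_singleton] at hp
      rcases hp with rfl | rfl
      · exact ⟨2, Or.inl rfl, rfl⟩
      · exact ⟨14, Or.inr rfl, rfl⟩
  · refine ⟨{(II (j + 1), 3 * off ((j + 1) % 10) + 26), (II (j + 1), 3 * off ((j + 1) % 10) + 29)},
      ?_, ?_, Or.inr ?_⟩
    · rw [Finset.card_pair]
      intro h
      have := congrArg Prod.snd h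
      simp only at this
      omega
    · intro p hp
      simp only [Finset.mem_insert, Finset.mem_singleton] at hp
      rcases hp with rfl | rfl
      · refine ⟨by simp only; omega, ?_, ?_⟩
        · have e : (3 * off ((j + 1) % 10) + 26) / 3 = off ((j + 1) % 10) + 8 := by omega
          simp only [e]
          exact hf 8 (by norm_num)
        · simp only [t6]
          rw [t8, ← II_pred]
          exact he 4 (by norm_num)
      · refine ⟨by simp only; omega, ?_, ?_⟩
        · have e : (3 * off ((j + 1) % 10) + 29) / 3 = off ((j + 1) % 10) + 9 := by omega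
          simp only [e]
          exact hf 9 (by norm_num)
        · simp only [t5]
          rw [t7, ← II_pred]
          exact he 0 (by norm_num)
    · intro p hp
      simp only [Finset.mem_insert, Finset.mem_singleton] at hp
      rcases hp with rfl | rfl
      · exact ⟨26, Or.inl rfl, rfl⟩
      · exact ⟨29, Or.inr rfl, rfl⟩

/-- two transitions -/
theorem trans_trans (S : Finset (VG n)) {j j' : ℕ} (h1 : j < j') (h2 : j' < j + 10 * (n + 1))
    (h : (Fu S j ∧ Em S (j + 1)) ∨ (Em S j ∧ Fu S (j + 1)))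
    (h' : (Fu S j' ∧ Em S (j' + 1)) ∨ (Em S j' ∧ Fu S (j' + 1))) : 4 ≤ QQ S := by
  obtain ⟨E, e1, e2, e3⟩ := trans_two S j h
  obtain ⟨F, f1, f2, f3⟩ := trans_two S j' h'
  refine two_two S E F e2 f2 e1 f1 ?_
  intro p hp hq
  have hm : ∀ j : ℕ, j % 10 < 10 := fun j => Nat.mod_lt _ (by norm_num)
  rcases e3 with e3 | e3 <;> rcases f3 with f3 | f3
  · obtain ⟨d, hd, e⟩ := e3 p hp
    obtain ⟨d', hd', e'⟩ := f3 p hq
    have h3 := congrArg Prod.fst (e.symm.trans e')
    have h4 := congrArg Prod.snd (e.symm.trans e')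
    simp only at h3 h4
    obtain ⟨h5, -⟩ := off_inj (hm _) (hm _) (by omega) (by omega) h4
    exact pos_inj h1 h2 h3 h5
  · obtain ⟨d, hd, e⟩ := e3 p hp
    obtain ⟨d', hd', e'⟩ := f3 p hq
    have h4 := congrArg Prod.snd (e.symm.trans e')
    simp only at h4
    obtain ⟨-, h5⟩ := off_inj (hm _) (hm _) (by omega) (by omega) h4
    omega
  · obtain ⟨d, hd, e⟩ := e3 p hp
    obtain ⟨d', hd', e'⟩ := f3 p hq
    have h4 := congrArg Prod.snd (e.symm.trans e')
    simp only at h4
    obtain ⟨-, h5⟩ := off_inj (hm _) (hm _) (by omega) (by omega) h4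
    omega
  · obtain ⟨d, hd, e⟩ := e3 p hp
    obtain ⟨d', hd', e'⟩ := f3 p hq
    have h3 := congrArg Prod.fst (e.symm.trans e')
    have h4 := congrArg Prod.snd (e.symm.trans e')
    simp only at h3 h4
    obtain ⟨h5, -⟩ := off_inj (hm _) (hm _) (by omega) (by omega) h4
    exact pos_inj (by omega : j + 1 < j' + 1) (by omega) h3 h5

/-- the values on a fragment -/
def lst (S : Finset (VG n)) (i : ZMod (n + 1)) (c : ℕ) : List Bool :=
  (List.range 11).map (fun x => decide (vx i (off c + x) ∈ S))

theorem lst_len (S : Finset (VG n)) (i : ZMod (n + 1)) (c : ℕ) : (lst S i c).length = 11 := by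
  simp [lst]

theorem lst_get (S : Finset (VG n)) (i : ZMod (n + 1)) (c : ℕ) {x : ℕ} (hx : x < 11) :
    (lst S i c).getD x false = decide (vx i (off c + x) ∈ S) := by
  unfold lst
  rw [List.getD_eq_getElem?_getD, List.getElem?_map, List.getElem?_range hx]
  rfl

theorem card_image (L : List ℕ) (hL : L.Nodup) (i : ZMod (n + 1)) (a : ℕ) :
    (L.toFinset.image (fun d => (i, a + d))).card = L.length := by
  rw [Finset.card_image_of_injective, List.toFinset_card_of_nodup hL]
  intro x y h
  have := congrArg Prod.snd h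
  simp only at this
  omega

theorem int_two (S : Finset (VG n)) (i : ZMod (n + 1)) (c : ℕ) (hc : c < 10)
    (h1 : ∃ x < 11, vx i (off c + x) ∈ S) (h2 : ∃ x < 11, vx i (off c + x) ∉ S) :
    ∃ E : Finset (ZMod (n + 1) × ℕ), 2 ≤ E.card ∧ (∀ p ∈ E, p.2 < 354 ∧ cutd S p.1 p.2) ∧
      (∀ p ∈ E, ∃ d, d < 33 ∧ FT d < 11 ∧ p = (i, 3 * off c + d)) := by
  have hF := allF_sound tF1 (lst S i c) (lst_len S i c)
  unfold chk1 at hF
  simp only [Bool.or_eq_true, List.all_eq_true, List.mem_range, Bool.not_eq_true',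
    decide_eq_true_eq] at hF
  rcases hF with (hF | hF) | hF
  · exfalso
    obtain ⟨x, hx, hx'⟩ := h2
    have := hF x hx
    rw [lst_get S i c hx] at this
    exact hx' (by simpa using this)
  · exfalso
    obtain ⟨x, hx, hx'⟩ := h1
    have := hF x hx
    rw [lst_get S i c hx] at this
    exact absurd hx' (by simpa using this)
  · have hn : (intL (lst S i c)).Nodup := List.Nodup.filter _ List.nodup_range
    refine ⟨(intL (lst S i c)).toFinset.image (fun d => (i, 3 * off c + d)), ?_, ?_, ?_⟩
    · rw [card_image _ hn]; exact hF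
    · intro p hp
      simp only [Finset.mem_image, List.mem_toFinset] at hp
      obtain ⟨d, hd, rfl⟩ := hp
      simp only [intL, List.mem_filter, List.mem_range, Bool.and_eq_true, decide_eq_true_eq,
        Bool.not_eq_true'] at hd
      obtain ⟨hd1, ⟨hd2, hd3⟩, hd4⟩ := hd
      rw [lst_get S i c (by omega)] at hd3
      rw [lst_get S i c hd2] at hd4
      have t := allB_sound (allB_sound tX1 c hc) d hd1
      simp only [Bool.or_eq_true, Bool.and_eq_true, beq_iff_eq] at t
      have o1 := off_le hc
      refine ⟨by simp only; omega, ?_, ?_⟩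
      · have e : (3 * off c + d) / 3 = off c + d / 3 := by omega
        simp only [e]
        simpa using hd3
      · rcases t with t | ⟨t1, t2⟩
        · omega
        · simp only [t1, t2]
          have e : i + (shz 0 : ZMod (n + 1)) = i := by simp [shz]
          rw [e]
          simpa using hd4
    · intro p hp
      simp only [Finset.mem_image, List.mem_toFinset] at hp
      obtain ⟨d, hd, rfl⟩ := hp
      simp only [intL, List.mem_filter, List.mem_range, Bool.and_eq_true, decide_eq_true_eq] at hd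
      exact ⟨d, hd.1, hd.2.1.1, rfl⟩

/-- every vertex is in a fragment or in a tree -/
theorem loc (v : VG n) : (∃ c < 10, ∃ x < 11, v = vx v.1 (off c + x)) ∨ ∃ w < 8, v = vx v.1 (tv w) := by
  have t := allB_sound tX5 v.2.val v.2.isLt
  simp only [Bool.or_eq_true, List.any_eq_true, List.mem_range, beq_iff_eq] at t
  rcases t with ⟨c, hc, x, hx, e⟩ | ⟨w, hw, e⟩
  · left
    refine ⟨c, hc, x, hx, ?_⟩
    rw [e, vx_self]
  · right
    refine ⟨w, hw, ?_⟩
    rw [e, vx_self]

/-- no subset of the tree vertices has minimum degree two -/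
theorem no_tree (U : Finset (VG n)) (hne : U.Nonempty)
    (hU : ∀ u ∈ U, ∃ s t : Fin 3, s ≠ t ∧ nbr u s ∈ U ∧ nbr u t ∈ U)
    (hT : ∀ u ∈ U, ∃ w < 8, u = vx u.1 (tv w)) : False := by
  obtain ⟨u, hu, hmin⟩ := Finset.exists_min_image U (fun u => rk u.2.val) hne
  obtain ⟨s, t, hst, hs, ht⟩ := hU u hu
  obtain ⟨w, hw, e⟩ := hT u hu
  have hv : u.2.val = tv w := by
    have h2 := congrArg (fun v : VG n => v.2.val) e
    simp only [vx] at h2
    have := tv_le hw
    rw [Nat.mod_eq_of_lt (by omega)] at h2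
    exact h2
  have hn : ∀ s : Fin 3, nbr u s ∈ U → (∃ w' < 8, ob (3 * tv w + s.val) / 3 = tv w') ∧
      rk (tv w) ≤ rk (ob (3 * tv w + s.val) / 3) := by
    intro s hs
    have h1 : (nbr u s).2.val = ob (3 * tv w + s.val) / 3 := by
      rw [tgt_val]
      unfold dn
      rw [hv]
    constructor
    · obtain ⟨w', hw', e'⟩ := hT _ hs
      refine ⟨w', hw', ?_⟩
      have h2 := congrArg (fun v : VG n => v.2.val) e'
      simp only [vx] at h2
      have := tv_le hw'
      rw [Nat.mod_eq_of_lt (by omega)] at h2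
      rw [← h1, h2]
    · have := hmin _ hs
      rw [h1, hv] at this
      exact this
  have t7 := allB_sound (allB_sound (allB_sound tX7 w hw) s.val s.isLt) t.val t.isLt
  simp only [Bool.or_eq_true, beq_iff_eq, Bool.not_eq_true', Bool.and_eq_false_iff] at t7
  rcases t7 with t7 | t7
  · exact hst (Fin.ext t7)
  · obtain ⟨⟨w1, hw1, e1⟩, r1⟩ := hn s hs
    obtain ⟨⟨w2, hw2, e2⟩, r2⟩ := hn t ht
    rcases t7 with ((t7 | t7) | t7) | t7
    · rw [List.any_eq_false] at t7
      exact t7 w1 (List.mem_range.2 hw1) (by simpa using e1)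
    · rw [List.any_eq_false] at t7
      exact t7 w2 (List.mem_range.2 hw2) (by simpa using e2)
    · simp only [decide_eq_false_iff_not] at t7; exact t7 r1
    · simp only [decide_eq_false_iff_not] at t7; exact t7 r2

def lstT (S : Finset (VG n)) (i : ZMod (n + 1)) : List Bool :=
  (List.range 8).map (fun w => decide (vx i (tv w) ∈ S))

theorem lstT_get (S : Finset (VG n)) (i : ZMod (n + 1)) {w : ℕ} (hw : w < 8) :
    (lstT S i).getD w false = decide (vx i (tv w) ∈ S) := by
  unfold lstT
  rw [List.getD_eq_getElem?_getD, List.getElem?_map, List.getElem?_range hw]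
  rfl

theorem TT_lt {e : ℕ} (he : e < 24) : TT e < 18 := by
  have t := allB_sound (allB_sound tX4 (e / 3) (by omega)) (e % 3) (by omega)
  simp only [Bool.and_eq_true, decide_eq_true_eq] at t
  have : 3 * (e / 3) + e % 3 = e := by omega
  rw [this] at t
  exact t.2

/-- the tree part contributes two cut darts -/
theorem tree_two (S : Finset (VG n)) (i0 : ZMod (n + 1)) (c0 : ℕ) (hc0 : c0 < 10)
    (hE : ∀ i c, c < 10 → (i ≠ i0 ∨ c ≠ c0) → ∀ x < 11, vx i (off c + x) ∉ S)
    (i : ZMod (n + 1)) (w : ℕ) (hw : w < 8) (hi : vx i (tv w) ∈ S) :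
    ∃ E : Finset (ZMod (n + 1) × ℕ), 2 ≤ E.card ∧ (∀ p ∈ E, p.2 < 354 ∧ cutd S p.1 p.2) ∧
      (∀ p ∈ E, ∃ w < 8, p.2 / 3 = tv w) := by
  classical
  set c1 : ℕ := if i = i0 then c0 else 10 with hc1
  have hc1' : c1 < 11 := by rw [hc1]; split_ifs <;> omega
  have hF := allF_sound (allB_sound tF3 c1 hc1') (lstT S i) (by simp [lstT])
  unfold chk3 at hF
  simp only [Bool.or_eq_true, List.all_eq_true, List.mem_range, Bool.not_eq_true',
    decide_eq_true_eq] at hF
  rcases hF with hF | hF
  · exfalso
    have := hF w hw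
    rw [lstT_get S i hw] at this
    simp only [decide_eq_false_iff_not] at this
    exact this hi
  · have hn : (treeL c1 (lstT S i)).Nodup := List.Nodup.filter _ List.nodup_range
    have hmem : ∀ e ∈ treeL c1 (lstT S i), e < 24 ∧ vx i (tv (e / 3)) ∈ S ∧
        (if TT e < 8 then vx i (tv (TT e)) ∉ S else TT e ≠ 8 + c1) := by
      intro e he
      simp only [treeL, List.mem_filter, List.mem_range, Bool.and_eq_true] at he
      obtain ⟨h1, h2, h3⟩ := he
      rw [lstT_get S i (by omega)] at h2
      refine ⟨h1, by simpa using h2, ?_⟩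
      split_ifs at h3 ⊢ with h4
      · rw [lstT_get S i h4] at h3
        simpa using h3
      · simpa using h3
    have hinj : ∀ x < 24, ∀ y < 24, 3 * tv (x / 3) + x % 3 = 3 * tv (y / 3) + y % 3 → x = y := by
      intro x hx y hy h
      have h12 := allB_sound (allB_sound tX12 (x / 3) (by omega)) (y / 3) (by omega)
      simp only [Bool.or_eq_true, beq_iff_eq, Bool.not_eq_true', beq_eq_false_iff_ne] at h12
      rcases h12 with h12 | h12
      · omega
      · omega
    refine ⟨(treeL c1 (lstT S i)).toFinset.image (fun e => (i, 3 * tv (e / 3) + e % 3)), ?_, ?_, ?_⟩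
    · rw [Finset.card_image_of_injOn, List.toFinset_card_of_nodup hn]
      · exact hF
      · intro x hx y hy h
        simp only [List.coe_toFinset, Set.mem_ofPred_eq] at hx hy
        have h2 := congrArg Prod.snd h
        exact hinj x (hmem x hx).1 y (hmem y hy).1 h2
    · intro p hp
      simp only [Finset.mem_image, List.mem_toFinset] at hp
      obtain ⟨e, he, rfl⟩ := hp
      obtain ⟨h1, h2, h3⟩ := hmem e he
      have t := allB_sound (allB_sound tX4 (e / 3) (by omega)) (e % 3) (by omega)
      simp only [Bool.and_eq_true, beq_iff_eq, decide_eq_true_eq] at t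
      have e3 : 3 * (e / 3) + e % 3 = e := by omega
      rw [e3] at t
      obtain ⟨⟨t1, t2⟩, t3⟩ := t
      have hl := tv_le (by omega : e / 3 < 8)
      refine ⟨by simp only; omega, ?_, ?_⟩
      · have e4 : (3 * tv (e / 3) + e % 3) / 3 = tv (e / 3) := by omega
        simp only [e4]
        exact h2
      · simp only [t1, t2]
        have e : i + (shz 0 : ZMod (n + 1)) = i := by simp [shz]
        rw [e]
        split_ifs at h3 ⊢ with h4
        · exact h3
        · refine hE i (TT _ - 8) (by omega) ?_ 10 (by norm_num)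
          by_cases hii : i = i0
          · right
            rw [hc1, if_pos hii] at h3
            omega
          · exact Or.inl hii
    · intro p hp
      simp only [Finset.mem_image, List.mem_toFinset] at hp
      obtain ⟨e, he, rfl⟩ := hp
      have h1 := (hmem e he).1
      exact ⟨e / 3, by omega, by simp only; omega⟩

/-- everything outside one fragment is empty -/
theorem caseC (S U : Finset (VG n)) (hne : U.Nonempty) (hUS : U ⊆ S)
    (hU : ∀ u ∈ U, ∃ s t : Fin 3, s ≠ t ∧ nbr u s ∈ U ∧ nbr u t ∈ U) (i0 : ZMod (n + 1)) (c0 : ℕ)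
    (hc0 : c0 < 10) (hE : ∀ i c, c < 10 → (i ≠ i0 ∨ c ≠ c0) → ∀ x < 11, vx i (off c + x) ∉ S)
    (hnf : ∃ x < 11, vx i0 (off c0 + x) ∉ S) : 4 ≤ QQ S := by
  by_cases hA : ∃ x < 11, vx i0 (off c0 + x) ∈ S
  · obtain ⟨E, e1, e2, e3⟩ := int_two S i0 c0 hc0 hA hnf
    by_cases hW : ∃ i, ∃ w < 8, vx i (tv w) ∈ S
    · obtain ⟨i, w, hw, hi⟩ := hW
      obtain ⟨F, f1, f2, f3⟩ := tree_two S i0 c0 hc0 hE i w hw hi
      refine two_two S E F e2 f2 e1 f1 ?_
      intro p hp hq
      obtain ⟨d, hd, -, e⟩ := e3 p hp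
      obtain ⟨w, hw, e'⟩ := f3 p hq
      rw [e] at e'
      simp only at e'
      have e4 : (3 * off c0 + d) / 3 = off c0 + d / 3 := by omega
      rw [e4] at e'
      have t := allB_sound (allB_sound (allB_sound tX9 c0 hc0) (d / 3) (by omega)) w hw
      simp only [Bool.not_eq_true', beq_eq_false_iff_ne] at t
      exact t e'
    · push Not at hW
      have hF := allF_sound tF2 (lst S i0 c0) (lst_len S i0 c0)
      unfold chk2 at hF
      simp only [Bool.or_eq_true, decide_eq_true_eq, List.all_eq_true, List.mem_range,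
        Bool.not_eq_true', beq_iff_eq] at hF
      rcases hF with hF | hF
      · have hn : (cutL (lst S i0 c0)).Nodup := List.Nodup.filter _ List.nodup_range
        have h := card_le S ((cutL (lst S i0 c0)).toFinset.image (fun d => (i0, 3 * off c0 + d))) ?_
        · rw [card_image _ hn] at h
          omega
        · intro p hp
          simp only [Finset.mem_image, List.mem_toFinset] at hp
          obtain ⟨d, hd, rfl⟩ := hp
          simp only [cutL, List.mem_filter, List.mem_range, Bool.and_eq_true, Bool.or_eq_true,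
            beq_iff_eq, Bool.not_eq_true'] at hd
          obtain ⟨hd1, hd2, hd3⟩ := hd
          rw [lst_get S i0 c0 (by omega)] at hd2
          have o1 := off_le hc0
          have e : (3 * off c0 + d) / 3 = off c0 + d / 3 := by omega
          refine ⟨by simp only; omega, ?_, ?_⟩
          · simp only [e]
            simpa using hd2
          · simp only
            by_cases hext : FT d = 11
            · have t := allB_sound (allB_sound tX6 c0 hc0) d hd1
              simp only [Bool.or_eq_true, Bool.not_eq_true', beq_eq_false_iff_ne,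
                List.any_eq_true, List.mem_range, Bool.and_eq_true, beq_iff_eq] at t
              rcases t with (t | ⟨c', hc', hcc, y, hy, t⟩) | ⟨w, hw, t⟩
              · exact absurd hext t
              · rw [t]
                exact hE _ c' hc' (Or.inr hcc) y hy
              · rw [t]
                exact hW _ w hw
            · have t := allB_sound (allB_sound tX1 c0 hc0) d hd1
              simp only [Bool.or_eq_true, Bool.and_eq_true, beq_iff_eq] at t
              rcases t with t | ⟨t1, t2⟩
              · exact absurd t hext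
              · rw [t1, t2]
                have e : i0 + (shz 0 : ZMod (n + 1)) = i0 := by simp [shz]
                rw [e]
                rcases hd3 with hd3 | hd3
                · exact absurd hd3 hext
                · by_cases hlt : FT d < 11
                  · rw [lst_get S i0 c0 hlt] at hd3
                    simpa using hd3
                  · exfalso
                    have hall : ∀ d < 33, FT d ≤ 11 := by decide +kernel
                    have := hall d hd1
                    omega
      · -- at most one vertex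
        exfalso
        obtain ⟨u, hu⟩ := hne
        have huniq : ∀ v ∈ U, ∃ x < 11, v = vx i0 (off c0 + x) := by
          intro v hv
          rcases loc v with ⟨c, hc, x, hx, e⟩ | ⟨w, hw, e⟩
          · by_cases hp : v.1 ≠ i0 ∨ c ≠ c0
            · exfalso
              apply hE v.1 c hc hp x hx
              rw [← e]
              exact hUS hv
            · push Not at hp
              refine ⟨x, hx, ?_⟩
              rw [← hp.1, ← hp.2]
              exact e
          · exfalso
            apply hW v.1 w hw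
            rw [← e]
            exact hUS hv
        obtain ⟨s, t, hst, hs, ht⟩ := hU u hu
        obtain ⟨x, hx, ex⟩ := huniq u hu
        obtain ⟨y, hy, ey⟩ := huniq _ hs
        have h3 := hF x hx y hy
        rcases h3 with h3 | h3
        · apply nbr_ne u s
          rw [ey, ex, h3]
        · rw [lst_get S i0 c0 hx, lst_get S i0 c0 hy, ← ex, ← ey] at h3
          simp [hUS hu, hUS hs] at h3
  · exfalso
    push Not at hA
    refine no_tree U hne hU ?_
    intro u hu
    rcases loc u with ⟨c, hc, x, hx, e⟩ | h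
    · exfalso
      by_cases hp : u.1 ≠ i0 ∨ c ≠ c0
      · apply hE u.1 c hc hp x hx
        rw [← e]
        exact hUS hu
      · push Not at hp
        apply hA x hx
        rw [← hp.1, ← hp.2, ← e]
        exact hUS hu
    · exact h

/-- a sequence of trivial fragments -/
theorem seq_cases (S : Finset (VG n)) (a : ℕ) : ∀ k : ℕ,
    (∀ j, a ≤ j → j ≤ a + k → Em S j ∨ Fu S j) →
    (∀ j, a ≤ j → j ≤ a + k → Em S j) ∨ (∀ j, a ≤ j → j ≤ a + k → Fu S j) ∨
      ∃ j, a ≤ j ∧ j < a + k ∧ ((Fu S j ∧ Em S (j + 1)) ∨ (Em S j ∧ Fu S (j + 1)))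
  | 0, h => by
    rcases h a le_rfl le_rfl with h1 | h1
    · left; intro j h2 h3
      have : j = a := by omega
      rw [this]; exact h1
    · right; left; intro j h2 h3
      have : j = a := by omega
      rw [this]; exact h1
  | k + 1, h => by
    rcases seq_cases S a k (fun j h1 h2 => h j h1 (by omega)) with h1 | h1 | ⟨j, h1, h2, h3⟩
    · rcases h (a + (k + 1)) (by omega) le_rfl with h2 | h2
      · left; intro j h3 h4
        rcases (by omega : j ≤ a + k ∨ j = a + (k + 1)) with h5 | h5
        · exact h1 j h3 h5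
        · rw [h5]; exact h2
      · right; right
        exact ⟨a + k, by omega, by omega, Or.inr ⟨h1 _ (by omega) le_rfl, h2⟩⟩
    · rcases h (a + (k + 1)) (by omega) le_rfl with h2 | h2
      · right; right
        exact ⟨a + k, by omega, by omega, Or.inl ⟨h1 _ (by omega) le_rfl, h2⟩⟩
      · right; left; intro j h3 h4
        rcases (by omega : j ≤ a + k ∨ j = a + (k + 1)) with h5 | h5
        · exact h1 j h3 h5
        · rw [h5]; exact h2
    · right; right
      exact ⟨j, h1, by omega, h3⟩

theorem em_fu (S : Finset (VG n)) (j : ℕ) (h : Em S j) (h' : Fu S j) : False :=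
  h 0 (by norm_num) (h' 0 (by norm_num))

theorem QQ_compl (S : Finset (VG n)) : QQ Sᶜ = QQ S := by
  unfold QQ
  apply Finset.card_bij (fun p _ => (p.2, p.1))
  · intro p hp
    simp only [Finset.mem_filter, Finset.mem_univ, true_and, Finset.mem_compl, not_not] at hp ⊢
    exact ⟨hp.2.1, hp.1, hp.2.2.symm⟩
  · intro p _ q _ h
    simp only [Prod.mk.injEq] at h
    exact Prod.ext h.2 h.1
  · intro p hp
    simp only [Finset.mem_filter, Finset.mem_univ, true_and, Finset.mem_compl, not_not] at hp ⊢
    exact ⟨(p.2, p.1), ⟨hp.2.1, hp.1, hp.2.2.symm⟩, rfl⟩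

/-- main cut theorem -/
theorem cut_main (S U U' : Finset (VG n)) (hne : U.Nonempty) (hUS : U ⊆ S)
    (hU : ∀ u ∈ U, ∃ s t : Fin 3, s ≠ t ∧ nbr u s ∈ U ∧ nbr u t ∈ U)
    (hne' : U'.Nonempty) (hUS' : U' ⊆ Sᶜ)
    (hU' : ∀ u ∈ U', ∃ s t : Fin 3, s ≠ t ∧ nbr u s ∈ U' ∧ nbr u t ∈ U') : 4 ≤ QQ S := by
  -- a nontrivial position, if any
  have hj0 : ∃ j0, ∀ j, j0 < j → j < j0 + 10 * (n + 1) → (Em S j ∨ Fu S j) ∨ 4 ≤ QQ S := by
    by_cases h : ∃ j0, ¬ (Em S j0 ∨ Fu S j0)
    · obtain ⟨j0, h0⟩ := h
      refine ⟨j0, fun j h1 h2 => ?_⟩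
      by_cases h3 : Em S j ∨ Fu S j
      · exact Or.inl h3
      · right
        have conv : ∀ j, ¬ (Em S j ∨ Fu S j) → (∃ x < 11, vx (II j) (off (j % 10) + x) ∈ S) ∧
            ∃ x < 11, vx (II j) (off (j % 10) + x) ∉ S := by
          intro j hj
          unfold Em Fu at hj
          push Not at hj
          exact hj
        obtain ⟨a1, a2⟩ := conv j0 h0
        obtain ⟨b1, b2⟩ := conv j h3
        have hm : ∀ j : ℕ, j % 10 < 10 := fun j => Nat.mod_lt _ (by norm_num)
        obtain ⟨E, e1, e2, e3⟩ := int_two S (II j0) (j0 % 10) (hm _) a1 a2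
        obtain ⟨F, f1, f2, f3⟩ := int_two S (II j) (j % 10) (hm _) b1 b2
        refine two_two S E F e2 f2 e1 f1 ?_
        intro p hp hq
        obtain ⟨d, hd, -, e⟩ := e3 p hp
        obtain ⟨d', hd', -, e'⟩ := f3 p hq
        have h4 := congrArg Prod.fst (e.symm.trans e')
        have h5 := congrArg Prod.snd (e.symm.trans e')
        simp only at h4 h5
        obtain ⟨h6, -⟩ := off_inj (hm _) (hm _) hd hd' h5
        exact pos_inj h1 h2 h4 h6
    · push Not at h
      exact ⟨0, fun j _ _ => Or.inl (by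
        have := h j
        tauto)⟩
  by_contra hQ
  obtain ⟨j0, hj0⟩ := hj0
  have htr : ∀ j, j0 < j → j < j0 + 10 * (n + 1) → Em S j ∨ Fu S j := fun j h1 h2 =>
    (hj0 j h1 h2).resolve_right hQ
  -- other positions in terms of (i, c)
  have hpos : ∀ (i : ZMod (n + 1)) (c : ℕ), c < 10 → (i ≠ II j0 ∨ c ≠ j0 % 10) →
      ∃ j, j0 < j ∧ j < j0 + 10 * (n + 1) ∧ (II j : ZMod (n + 1)) = i ∧ j % 10 = c := by
    intro i c hc hic
    obtain ⟨j, h1, h2, h3⟩ := pos_surj i c hc
    -- move j into the window
    have hper : ∀ k, (II (j + 10 * (n + 1) * k) : ZMod (n + 1)) = i ∧ (j + 10 * (n + 1) * k) % 10 = c := by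
      intro k
      induction k with
      | zero => simp [h2, h3]
      | succ k ih =>
        have e : j + 10 * (n + 1) * (k + 1) = (j + 10 * (n + 1) * k) + 10 * (n + 1) := by ring
        rw [e, II_period]
        refine ⟨ih.1, ?_⟩
        omega
    have hex : ∃ k, j0 ≤ j + 10 * (n + 1) * k := ⟨j0, by nlinarith⟩
    classical
    let k := Nat.find hex
    have hk : j0 ≤ j + 10 * (n + 1) * k := Nat.find_spec hex
    have hk2 : j + 10 * (n + 1) * k < j0 + 10 * (n + 1) := by
      rcases Nat.eq_zero_or_pos k with hk0 | hk0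
      · rw [hk0]; omega
      · have := Nat.find_min hex (m := k - 1) (by omega)
        push Not at this
        have e : 10 * (n + 1) * k = 10 * (n + 1) * (k - 1) + 10 * (n + 1) := by
          obtain ⟨m, hm⟩ : ∃ m, k = m + 1 := ⟨k - 1, by omega⟩
          rw [hm]; simp; ring
        omega
    obtain ⟨p1, p2⟩ := hper k
    have hne0 : j + 10 * (n + 1) * k ≠ j0 := by
      intro h
      rw [h] at p1 p2
      rcases hic with h4 | h4
      · exact h4 p1.symm
      · exact h4 p2.symm
    exact ⟨_, by omega, hk2, p1, p2⟩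
  have h10 : 10 ≤ 10 * (n + 1) := by omega
  rcases seq_cases S (j0 + 1) (10 * (n + 1) - 2) (fun j h1 h2 => htr j (by omega) (by omega)) with
    h | h | ⟨j, h1, h2, h3⟩
  · -- all empty
    by_cases hf : Fu S j0
    · -- transitions around j0
      have a1 : Em S (j0 + 10 * (n + 1) - 1) := h _ (by omega) (by omega)
      have a2 : Em S (j0 + 1) := h _ (by omega) (by omega)
      have b1 : Fu S (j0 + 10 * (n + 1)) := (Fu_period S j0).2 hf
      have b2 : Em S (j0 + 10 * (n + 1) + 1) := by
        have e : j0 + 10 * (n + 1) + 1 = (j0 + 1) + 10 * (n + 1) := by omega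
        rw [e]; exact (Em_period S (j0 + 1)).2 a2
      have e : j0 + 10 * (n + 1) - 1 + 1 = j0 + 10 * (n + 1) := by omega
      exact hQ (trans_trans S (j := j0 + 10 * (n + 1) - 1) (j' := j0 + 10 * (n + 1)) (by omega)
        (by omega) (Or.inr ⟨a1, by rw [e]; exact b1⟩) (Or.inl ⟨b1, b2⟩))
    · have hnf : ∃ x < 11, vx (II j0) (off (j0 % 10) + x) ∉ S := by
        unfold Fu at hf; push Not at hf; exact hf
      refine hQ (caseC S U hne hUS hU (II j0) (j0 % 10) (Nat.mod_lt _ (by norm_num)) ?_ hnf)
      intro i c hc hic x hx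
      obtain ⟨j, q1, q2, q3, q4⟩ := hpos i c hc hic
      have := h j (by omega) (by omega) x hx
      rw [q3, q4] at this
      exact this
  · -- all full: apply to the complement
    by_cases he : Em S j0
    · have a1 : Fu S (j0 + 10 * (n + 1) - 1) := h _ (by omega) (by omega)
      have a2 : Fu S (j0 + 1) := h _ (by omega) (by omega)
      have b1 : Em S (j0 + 10 * (n + 1)) := (Em_period S j0).2 he
      have b2 : Fu S (j0 + 10 * (n + 1) + 1) := by
        have e : j0 + 10 * (n + 1) + 1 = (j0 + 1) + 10 * (n + 1) := by omega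
        rw [e]; exact (Fu_period S (j0 + 1)).2 a2
      have e : j0 + 10 * (n + 1) - 1 + 1 = j0 + 10 * (n + 1) := by omega
      exact hQ (trans_trans S (j := j0 + 10 * (n + 1) - 1) (j' := j0 + 10 * (n + 1)) (by omega)
        (by omega) (Or.inl ⟨a1, by rw [e]; exact b1⟩) (Or.inr ⟨b1, b2⟩))
    · have hne0 : ∃ x < 11, vx (II j0) (off (j0 % 10) + x) ∉ Sᶜ := by
        unfold Em at he; push Not at he
        obtain ⟨x, hx, hx'⟩ := he
        exact ⟨x, hx, by rw [Finset.mem_compl, not_not]; exact hx'⟩
      have hres := caseC Sᶜ U' hne' hUS' hU' (II j0) (j0 % 10) (Nat.mod_lt _ (by norm_num)) ?_ hne0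
      · rw [QQ_compl] at hres
        exact hQ hres
      · intro i c hc hic x hx
        obtain ⟨j, q1, q2, q3, q4⟩ := hpos i c hc hic
        have := h j (by omega) (by omega) x hx
        rw [q3, q4] at this
        rw [Finset.mem_compl, not_not]
        exact this
  · -- a transition away from j0
    by_cases ht0 : Em S j0 ∨ Fu S j0
    · -- go around the ring
      have hper : ∀ j', j0 + 1 ≤ j' → (Em S j' ∨ Fu S j') := by
        intro j' hj'
        -- reduce modulo the period
        obtain ⟨m, hm⟩ : ∃ m, j' = (j' - (j0 + 1)) % (10 * (n + 1)) + (j0 + 1) + 10 * (n + 1) * m := by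
          refine ⟨(j' - (j0 + 1)) / (10 * (n + 1)), ?_⟩
          have := Nat.mod_add_div (j' - (j0 + 1)) (10 * (n + 1))
          omega
        have hlt : (j' - (j0 + 1)) % (10 * (n + 1)) < 10 * (n + 1) := Nat.mod_lt _ (by omega)
        set r := (j' - (j0 + 1)) % (10 * (n + 1)) + (j0 + 1) with hr
        have hbase : Em S r ∨ Fu S r := by
          rcases (by omega : r < j0 + 10 * (n + 1) ∨ r = j0 + 10 * (n + 1)) with h4 | h4
          · exact htr r (by omega) h4
          · rw [h4, Em_period, Fu_period]; exact ht0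
        have hk : ∀ k, Em S (r + 10 * (n + 1) * k) ∨ Fu S (r + 10 * (n + 1) * k) := by
          intro k
          induction k with
          | zero => simpa using hbase
          | succ k ih =>
            have e : r + 10 * (n + 1) * (k + 1) = (r + 10 * (n + 1) * k) + 10 * (n + 1) := by ring
            rw [e, Em_period, Fu_period]; exact ih
        rw [hm]; exact hk m
      rcases seq_cases S (j + 1) (10 * (n + 1) - 1) (fun j' h4 _ => hper j' (by omega)) with
        h4 | h4 | ⟨j', h4, h5, h6⟩
      · have e1 := h4 (j + 1) le_rfl (by omega)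
        have e2 := h4 (j + 10 * (n + 1)) (by omega) (by omega)
        rw [Em_period] at e2
        rcases h3 with ⟨h7, -⟩ | ⟨-, h7⟩
        · exact em_fu S j e2 h7
        · exact em_fu S (j + 1) e1 h7
      · have e1 := h4 (j + 1) le_rfl (by omega)
        have e2 := h4 (j + 10 * (n + 1)) (by omega) (by omega)
        rw [Fu_period] at e2
        rcases h3 with ⟨-, h7⟩ | ⟨h7, -⟩
        · exact em_fu S (j + 1) h7 e1
        · exact em_fu S j h7 e2
      · exact hQ (trans_trans S (by omega : j < j') (by omega) h3 h6)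
    · unfold Em Fu at ht0
      push Not at ht0
      obtain ⟨E, e1, e2, e3⟩ := int_two S (II j0) (j0 % 10) (Nat.mod_lt _ (by norm_num)) ht0.1 ht0.2
      obtain ⟨F, f1, f2, f3⟩ := trans_two S j h3
      refine hQ (two_two S E F e2 f2 e1 f1 ?_)
      intro p hp hq
      obtain ⟨d, hd, hFT, e⟩ := e3 p hp
      have hm : ∀ j : ℕ, j % 10 < 10 := fun j => Nat.mod_lt _ (by norm_num)
      rcases f3 with f3 | f3
      · obtain ⟨d', hd', e'⟩ := f3 p hq
        have h5 := congrArg Prod.snd (e.symm.trans e')
        simp only at h5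
        obtain ⟨-, h6⟩ := off_inj (hm _) (hm _) hd (by omega) h5
        rcases hd' with rfl | rfl <;> (rw [h6] at hFT; revert hFT; decide)
      · obtain ⟨d', hd', e'⟩ := f3 p hq
        have h5 := congrArg Prod.snd (e.symm.trans e')
        simp only at h5
        obtain ⟨-, h6⟩ := off_inj (hm _) (hm _) hd (by omega) h5
        rcases hd' with rfl | rfl <;> (rw [h6] at hFT; revert hFT; decide)

end Pool.Agent.SCC
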