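import Pool.Agent.SCC.Graph

/-! Small edge cuts of the ring of blocks. -/

set_option autoImplicit false

namespace Pool.Agent.SCC

def offL : List ℕ := [0, 11, 22, 34, 45, 59, 70, 81, 93, 104]
def off (c : ℕ) : ℕ := offL.getD c 0
def tvL : List ℕ := [33, 56, 57, 58, 92, 115, 116, 117]
def tv (w : ℕ) : ℕ := tvL.getD w 0
def FTL : List ℕ := [1, 5, 11, 0, 2, 6, 1, 7, 9, 5, 6, 8, 6, 7, 11, 3, 0, 7, 4, 1, 3, 5, 2, 4,
  3, 10, 11, 2, 10, 11, 8, 9, 11]
def FT (d : ℕ) : ℕ := FTL.getD d 11
def TTL : List ℕ := [9, 10, 2, 11, 12, 2, 0, 1, 3, 8, 2, 7, 14, 15, 6, 16, 17, 6, 4, 5, 7, 13, 6, 3]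
def TT (e : ℕ) : ℕ := TTL.getD e 0

theorem tX1 : allB (fun c => allB (fun d => FT d == 11 ||
    (ob (3 * off c + d) / 3 == off c + FT d && sn (3 * off c + d) == 0)) 33) 10 = true := by
  decide +kernel

theorem tX2 : allB (fun c =>
    (ob (3 * off c + 2) / 3 == off ((c + 1) % 10) + 9) &&
    (ob (3 * off c + 14) / 3 == off ((c + 1) % 10) + 8) &&
    (sn (3 * off c + 2) == if c == 9 then 1 else 0) &&
    (sn (3 * off c + 14) == if c == 9 then 1 else 0) &&
    (ob (3 * off ((c + 1) % 10) + 29) / 3 == off c + 0) &&
    (ob (3 * off ((c + 1) % 10) + 26) / 3 == off c + 4) &&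
    (sn (3 * off ((c + 1) % 10) + 29) == if c == 9 then 2 else 0) &&
    (sn (3 * off ((c + 1) % 10) + 26) == if c == 9 then 2 else 0)) 10 = true := by
  decide +kernel

/-- external darts of a fragment go to another fragment or to a tree vertex -/
theorem tX6 : allB (fun c => allB (fun d => !(FT d == 11) ||
    (List.range 10).any (fun c' => !(c' == c) && (List.range 11).any (fun y =>
      ob (3 * off c + d) / 3 == off c' + y)) ||
    (List.range 8).any (fun w => ob (3 * off c + d) / 3 == tv w)) 33) 10 = true := by
  decide +kernel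

theorem tX4 : allB (fun w => allB (fun t => sn (3 * tv w + t) == 0 &&
    (ob (3 * tv w + t) / 3 == if TT (3 * w + t) < 8 then tv (TT (3 * w + t)) else
      off (TT (3 * w + t) - 8) + 10) && decide (TT (3 * w + t) < 18)) 3) 8 = true := by
  decide +kernel

theorem tX5 : allB (fun a => (List.range 10).any (fun c => (List.range 11).any (fun x =>
    off c + x == a)) || (List.range 8).any (fun w => tv w == a)) 118 = true := by
  decide +kernel

def rk (a : ℕ) : ℕ := if a == 57 || a == 92 || a == 115 then 1 else if a == 58 || a == 116 then 2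
  else if a == 117 then 3 else 0

theorem tX7 : allB (fun w => allB (fun s => allB (fun t => s == t ||
    !((List.range 8).any (fun w' => ob (3 * tv w + s) / 3 == tv w') &&
      (List.range 8).any (fun w' => ob (3 * tv w + t) / 3 == tv w') &&
      decide (rk (tv w) ≤ rk (ob (3 * tv w + s) / 3)) &&
      decide (rk (tv w) ≤ rk (ob (3 * tv w + t) / 3)))) 3) 3) 8 = true := by
  decide +kernel

theorem tX8 : allB (fun c => allB (fun c' => decide (off c + 11 ≤ off c') ||
    decide (off c' + 11 ≤ off c) || c == c') 10) 10 = true := by
  decide +kernel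

theorem tX9 : allB (fun c => allB (fun x => allB (fun w => !(off c + x == tv w)) 8) 11) 10
    = true := by
  decide +kernel

theorem tX10 : allB (fun c => decide (off c ≤ 104)) 10 = true := by
  decide +kernel

theorem tX11 : allB (fun w => decide (tv w ≤ 117)) 8 = true := by
  decide +kernel

theorem tX12 : allB (fun w => allB (fun w' => w == w' || !(tv w == tv w')) 8) 8 = true := by
  decide +kernel

/-- all lists of Booleans of a given length -/
def allF : ℕ → (List Bool → Bool) → Bool
  | 0, p => p []
  | k + 1, p => allF k (fun l => p (true :: l)) && allF k (fun l => p (false :: l))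

theorem allF_sound : ∀ {k : ℕ} {p : List Bool → Bool}, allF k p = true →
    ∀ l : List Bool, l.length = k → p l = true
  | 0, p, h, l, hl => by
    have : l = [] := List.length_eq_zero_iff.1 hl
    subst this; exact h
  | k + 1, p, h, l, hl => by
    simp only [allF, Bool.and_eq_true] at h
    match l, hl with
    | true :: l, hl => exact allF_sound h.1 l (by simpa using hl)
    | false :: l, hl => exact allF_sound h.2 l (by simpa using hl)

def intL (l : List Bool) : List ℕ := (List.range 33).filter
  (fun d => decide (FT d < 11) && l.getD (d / 3) false && !(l.getD (FT d) false))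

def cutL (l : List Bool) : List ℕ := (List.range 33).filter
  (fun d => l.getD (d / 3) false && (FT d == 11 || !(l.getD (FT d) false)))

def chk1 (l : List Bool) : Bool :=
  (List.range 11).all (fun x => l.getD x false) || (List.range 11).all (fun x => !(l.getD x false))
    || decide (2 ≤ (intL l).length)

def chk2 (l : List Bool) : Bool :=
  decide (4 ≤ (cutL l).length) || (List.range 11).all (fun x => (List.range 11).all (fun y =>
    x == y || !(l.getD x false && l.getD y false)))

def treeL (c : ℕ) (l : List Bool) : List ℕ := (List.range 24).filter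
  (fun e => l.getD (e / 3) false && (if TT e < 8 then !(l.getD (TT e) false) else !(TT e == 8 + c)))

def chk3 (c : ℕ) (l : List Bool) : Bool :=
  (List.range 8).all (fun x => !(l.getD x false)) || decide (2 ≤ (treeL c l).length)

theorem tF1 : allF 11 chk1 = true := by decide +kernel
theorem tF2 : allF 11 chk2 = true := by decide +kernel
theorem tF3 : allB (fun c => allF 8 (chk3 c)) 11 = true := by decide +kernel

end Pool.Agent.SCC
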