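import Pool.Agent.SCC.Graph

/-! Girth at least five. -/

set_option autoImplicit false

namespace Pool.Agent.SCC

variable {n : ℕ}

theorem adj0 (i : ZMod (n + 1)) (x y : Fin 118) (t : Fin 3) (h : sn (3 * x.val + t.val) = 0)
    (h' : ob (3 * x.val + t.val) / 3 = y.val) : (GG n).Adj (i, x) (i, y) := by
  refine ⟨t, ?_⟩
  unfold nbr dn
  refine Prod.ext ?_ ?_
  · show i + shz (sn (3 * x.val + t.val)) = i
    rw [h]; simp [shz]
  · show tgt (3 * x.val + t.val) = y
    apply Fin.ext
    show ob (3 * x.val + t.val) / 3 % 118 = y.val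
    rw [h']
    exact Nat.mod_eq_of_lt y.isLt

theorem not_acyclic : ¬ (GG n).IsAcyclic := by
  intro h
  have a1 : (GG n).Adj (0, 0) (0, 1) := adj0 0 0 1 0 (by decide +kernel) (by decide +kernel)
  have a2 : (GG n).Adj (0, 1) (0, 2) := adj0 0 1 2 1 (by decide +kernel) (by decide +kernel)
  have a3 : (GG n).Adj (0, 2) (0, 7) := adj0 0 2 7 1 (by decide +kernel) (by decide +kernel)
  have a4 : (GG n).Adj (0, 7) (0, 5) := adj0 0 7 5 0 (by decide +kernel) (by decide +kernel)
  have a5 : (GG n).Adj (0, 5) (0, 0) := adj0 0 5 0 1 (by decide +kernel) (by decide +kernel)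
  let w : (GG n).Walk (0, 0) (0, 0) := .cons a1 (.cons a2 (.cons a3 (.cons a4 (.cons a5 .nil))))
  refine h w ?_
  refine { edges_nodup := ?_, ne_nil := ?_, support_nodup := ?_ }
  · simp [w]
  · simp [w]
  · simp [w]

theorem opt_uniq (v : VG n) (s u : Fin 3) (h : (nbr (nbr v s) u).2 = v.2) : u = opt v s := by
  by_contra hne
  have h1 := allB_sound (allB_sound (allB_sound tabB (nbr v s).2.val (nbr v s).2.isLt) u.val u.isLt)
    (opt v s).val (opt v s).isLt
  simp only [Bool.and_eq_true, Bool.or_eq_true, Bool.not_eq_true', beq_eq_false_iff_ne, beq_iff_eq] at h1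
  rcases h1.1 with h2 | h2
  · exact hne (Fin.ext h2)
  · apply h2
    have e1 := tgt_val (nbr v s) u
    have e2 := tgt_val (nbr v s) (opt v s)
    rw [nbr_nbr] at e2
    rw [h] at e1
    unfold dn at e1 e2
    rw [← e1, ← e2]

theorem no_tri (v : VG n) (s t u : Fin 3) (hst : s ≠ t) : nbr (nbr v s) u ≠ nbr v t := by
  intro h
  have h1 := allB_sound (allB_sound (allB_sound (allB_sound tabC v.2.val v.2.isLt) s.val s.isLt)
    t.val t.isLt) u.val u.isLt
  simp only [Bool.or_eq_true, Bool.not_eq_true', beq_eq_false_iff_ne, beq_iff_eq] at h1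
  rcases h1 with h2 | h2
  · exact hst (Fin.ext h2)
  · apply h2
    have e0 := tgt_val v s
    have e1 := tgt_val (nbr v s) u
    have e2 := tgt_val v t
    rw [h] at e1
    unfold dn at e0 e1 e2
    rw [← e0, ← e1, ← e2]

theorem no_quad (v : VG n) (s t u w : Fin 3) (hst : s ≠ t)
    (h : nbr (nbr v s) u = nbr (nbr v t) w) : nbr (nbr v s) u = v := by
  have h1 := allB_sound (allB_sound (allB_sound (allB_sound (allB_sound tabD v.2.val v.2.isLt)
    s.val s.isLt) t.val t.isLt) u.val u.isLt) w.val w.isLt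
  simp only [Bool.or_eq_true, Bool.not_eq_true', beq_eq_false_iff_ne, beq_iff_eq] at h1
  have e0 := tgt_val v s
  have e1 := tgt_val (nbr v s) u
  have e2 := tgt_val v t
  have e3 := tgt_val (nbr v t) w
  unfold dn at e0 e1 e2 e3
  rcases h1 with (h2 | h2) | h2
  · exact absurd (Fin.ext h2) hst
  · exfalso
    apply h2
    rw [← e0, ← e1, ← e2, ← e3, h]
  · rw [← e0, ← e1] at h2
    have := opt_uniq v s u (Fin.ext h2)
    rw [this, nbr_nbr]

theorem girth_ge : 5 ≤ (GG n).girth := by
  obtain ⟨a, w, hw, hl⟩ := SimpleGraph.exists_girth_eq_length.2 (not_acyclic (n := n))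
  rw [hl]
  by_contra hlt
  have h3 := hw.three_le_length
  have hinj := hw.getVert_injOn'
  have hadj := fun i (hi : i < w.length) => w.adj_getVert_succ hi
  have h0 : w.getVert 0 = a := w.getVert_zero
  have hL : w.getVert w.length = a := w.getVert_length
  rcases (by omega : w.length = 3 ∨ w.length = 4) with h | h
  · rw [h] at hL hinj
    obtain ⟨s, hs⟩ := hadj 0 (by omega)
    obtain ⟨u, hu⟩ := hadj 1 (by omega)
    obtain ⟨t, ht⟩ := (hadj 2 (by omega)).symm
    norm_num at hs hu ht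
    rw [hL] at ht
    have hst : s ≠ t := by
      rintro rfl
      rw [ht] at hs
      have := hinj (by simp : (2 : ℕ) ∈ {i | i ≤ 3 - 1}) (by simp : (1 : ℕ) ∈ {i | i ≤ 3 - 1}) hs
      omega
    rw [← hs] at hu
    exact no_tri a s t u hst (by rw [hu, ht])
  · rw [h] at hL hinj
    obtain ⟨s, hs⟩ := hadj 0 (by omega)
    obtain ⟨u, hu⟩ := hadj 1 (by omega)
    obtain ⟨x, hx⟩ := (hadj 2 (by omega)).symm
    obtain ⟨t, ht⟩ := (hadj 3 (by omega)).symm
    norm_num at hs hu hx ht
    rw [hL] at ht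
    have hst : s ≠ t := by
      rintro rfl
      rw [ht] at hs
      have := hinj (by simp : (3 : ℕ) ∈ {i | i ≤ 4 - 1}) (by simp : (1 : ℕ) ∈ {i | i ≤ 4 - 1}) hs
      omega
    rw [← hs] at hu
    rw [← ht] at hx
    have := no_quad a s t u x hst (by rw [hu, hx])
    rw [hu] at this
    have := hinj (by simp : (2 : ℕ) ∈ {i | i ≤ 4 - 1}) (by simp : (0 : ℕ) ∈ {i | i ≤ 4 - 1})
      (this.trans h0.symm)
    omega

end Pool.Agent.SCC
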