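import Pool.Agent.SCC.Half

/-! The cubic graph built from a ring of blocks. -/

set_option autoImplicit false

namespace Pool.Agent.SCC

/-- table of opposite darts in the block of 118 vertices, base 512 -/
def TB : ℕ := 41638436620305241313144043588174851758789069162839200293963958124168334315541519098250836757910051343666085421930367895141548813100772130539692534901063460428856992011468169897502502985833162512053627073707131156054205168310320507673627862222551957454923463123547875199744478393052816518652397201940871219478333020902509131771836709876156025875684357582818927699826840193298312777987104958786151037314049994715164908329795667998364175453490297479817639515704576359367565980009058352443669997139087329277570891550144479367852920590996820855847342198783610383776504767540904419139152700192573032119693638448600733938842288632653838578849202496414602331543780822204531902927541625787428254515343325679672789560104922707833921734063258922188269880552423015259117287656458488336254187370797206241047684172713419218912364890593053672272028454923187799274012204718070218945765585711184605009791319407211694731277181394626884925753625613550678445135882360927395782659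

/-- table of shifts (0: same block, 1: next block, 2: previous block), base 4 -/
def SB : ℕ := 18687757883657615527222993448015679814685350707200967503132824354876104400139468944434221440076073204023445799096037803085403031874863345157893193307735831825386368489889282530526598238220354322432

def ob (d : ℕ) : ℕ := TB / 512 ^ d % 512

def sn (d : ℕ) : ℕ := SB / 4 ^ d % 4

def allB (p : ℕ → Bool) : ℕ → Bool
  | 0 => true
  | n + 1 => p n && allB p n

theorem allB_sound {p : ℕ → Bool} : ∀ {n : ℕ}, allB p n = true → ∀ k < n, p k = true
  | 0, _, k, hk => absurd hk (Nat.not_lt_zero k)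
  | n + 1, h, k, hk => by
    simp only [allB, Bool.and_eq_true] at h
    rcases Nat.lt_succ_iff_lt_or_eq.1 hk with h1 | rfl
    · exact allB_sound h.2 k h1
    · exact h.1

def inv3 (s : ℕ) : ℕ := if s == 1 then 2 else if s == 2 then 1 else 0

theorem tabA : allB (fun d => decide (ob d < 354) && ob (ob d) == d && sn (ob d) == inv3 (sn d) &&
    decide (sn d < 3)) 354 = true := by
  decide +kernel

theorem tabB : allB (fun a => allB (fun s => allB (fun t =>
    (s == t || !(ob (3 * a + s) / 3 == ob (3 * a + t) / 3)) && !(ob (3 * a + s) / 3 == a)) 3) 3) 118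
      = true := by
  decide +kernel

/-- no triangles -/
theorem tabC : allB (fun a => allB (fun s => allB (fun t => allB (fun u =>
    s == t || !(ob (3 * (ob (3 * a + s) / 3) + u) / 3 == ob (3 * a + t) / 3)) 3) 3) 3) 118
      = true := by
  decide +kernel

/-- no 4-cycles -/
theorem tabD : allB (fun a => allB (fun s => allB (fun t => allB (fun u => allB (fun w =>
    s == t || !(ob (3 * (ob (3 * a + s) / 3) + u) / 3 == ob (3 * (ob (3 * a + t) / 3) + w) / 3)
      || ob (3 * (ob (3 * a + s) / 3) + u) / 3 == a) 3) 3) 3) 3) 118
      = true := by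
  decide +kernel

variable {n : ℕ}

/-- vertices: block, place in the block -/
abbrev VG (n : ℕ) : Type := ZMod (n + 1) × Fin 118

instance : Fintype (ZMod (n + 1)) := ZMod.fintype (n + 1)

def shz (s : ℕ) : ZMod (n + 1) := if s = 1 then 1 else if s = 2 then -1 else 0

def tgt (d : ℕ) : Fin 118 := ⟨ob d / 3 % 118, Nat.mod_lt _ (by norm_num)⟩

/-- dart number -/
def dn (v : VG n) (t : Fin 3) : ℕ := 3 * v.2.val + t.val

def nbr (v : VG n) (t : Fin 3) : VG n := (v.1 + shz (sn (dn v t)), tgt (dn v t))

def opt (v : VG n) (t : Fin 3) : Fin 3 := ⟨ob (dn v t) % 3, Nat.mod_lt _ (by norm_num)⟩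

theorem dn_lt (v : VG n) (t : Fin 3) : dn v t < 354 := by
  unfold dn
  have := v.2.isLt
  have := t.isLt
  omega

theorem tab1 (d : ℕ) (hd : d < 354) : ob d < 354 ∧ ob (ob d) = d ∧ sn (ob d) = inv3 (sn d) ∧
    sn d < 3 := by
  have h := allB_sound tabA d hd
  simp only [Bool.and_eq_true, beq_iff_eq, decide_eq_true_eq] at h
  exact ⟨h.1.1.1, h.1.1.2, h.1.2, h.2⟩

theorem dn_nbr (v : VG n) (t : Fin 3) : dn (nbr v t) (opt v t) = ob (dn v t) := by
  have h := tab1 _ (dn_lt v t)
  unfold dn nbr opt tgt
  simp only
  have h2 : ob (dn v t) < 354 := h.1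
  unfold dn at h2 ⊢
  omega

theorem shz_inv (s : ℕ) (hs : s < 3) : (shz (inv3 s) : ZMod (n + 1)) = - shz s := by
  interval_cases s <;> simp [shz, inv3]

theorem nbr_nbr (v : VG n) (t : Fin 3) : nbr (nbr v t) (opt v t) = v := by
  have h := tab1 _ (dn_lt v t)
  have e : dn (nbr v t) (opt v t) = ob (dn v t) := dn_nbr v t
  refine Prod.ext ?_ ?_
  · show (nbr v t).1 + shz (sn (dn (nbr v t) (opt v t))) = v.1
    rw [e, h.2.2.1, shz_inv _ h.2.2.2]
    show v.1 + shz (sn (dn v t)) + - shz (sn (dn v t)) = v.1
    ring
  · show tgt (dn (nbr v t) (opt v t)) = v.2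
    rw [e]
    unfold tgt
    apply Fin.ext
    simp only
    rw [h.2.1]
    unfold dn
    have := v.2.isLt
    have := t.isLt
    omega

theorem opt_opt (v : VG n) (t : Fin 3) : opt (nbr v t) (opt v t) = t := by
  have h := tab1 _ (dn_lt v t)
  apply Fin.ext
  unfold opt
  simp only
  have e := dn_nbr v t
  unfold opt at e
  rw [e, h.2.1]
  unfold dn
  have := t.isLt
  omega

theorem tgt_val (v : VG n) (t : Fin 3) : (nbr v t).2.val = ob (dn v t) / 3 := by
  have h := tab1 _ (dn_lt v t)
  show ob (dn v t) / 3 % 118 = _
  have := h.1
  omega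

theorem nbr_inj (v : VG n) {s t : Fin 3} (h : nbr v s = nbr v t) : s = t := by
  by_contra hst
  have h1 := allB_sound (allB_sound (allB_sound tabB v.2.val v.2.isLt) s.val s.isLt) t.val t.isLt
  simp only [Bool.and_eq_true, Bool.or_eq_true, Bool.not_eq_true', beq_eq_false_iff_ne, beq_iff_eq] at h1
  rcases h1.1 with h2 | h2
  · exact hst (Fin.ext h2)
  · apply h2
    have e1 := tgt_val v s
    have e2 := tgt_val v t
    rw [h] at e1
    unfold dn at e1 e2
    rw [← e1, ← e2]

theorem nbr_ne (v : VG n) (t : Fin 3) : nbr v t ≠ v := by
  intro h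
  have h1 := allB_sound (allB_sound (allB_sound tabB v.2.val v.2.isLt) t.val t.isLt) t.val t.isLt
  simp only [Bool.and_eq_true, Bool.or_eq_true, Bool.not_eq_true', beq_eq_false_iff_ne, beq_iff_eq] at h1
  apply h1.2
  have e1 := tgt_val v t
  rw [h] at e1
  unfold dn at e1
  rw [← e1]

/-- the graph -/
def GG (n : ℕ) : SimpleGraph (VG n) where
  Adj u v := ∃ t, nbr u t = v
  symm := ⟨fun u v ⟨t, ht⟩ => ⟨opt u t, by rw [← ht]; exact nbr_nbr u t⟩⟩
  loopless := ⟨fun u ⟨t, ht⟩ => nbr_ne u t ht⟩

instance : DecidableRel (GG n).Adj := fun u v => by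
  unfold GG
  infer_instance

theorem adj_nbr (v : VG n) (t : Fin 3) : (GG n).Adj v (nbr v t) := ⟨t, rfl⟩

theorem regular : (GG n).IsRegularOfDegree 3 := by
  intro v
  have h : (GG n).neighborFinset v = Finset.univ.image (nbr v) := by
    ext w
    simp only [SimpleGraph.mem_neighborFinset, Finset.mem_image, Finset.mem_univ, true_and]
    exact Iff.rfl
  rw [← SimpleGraph.card_neighborFinset_eq_degree, h, Finset.card_image_of_injective _ (fun s t => nbr_inj v)]
  simp

end Pool.Agent.SCC
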