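import Pool.Agent.SCC.Pats

/-! The block of five Petersen fragments has no local structure of excess zero. -/

set_option autoImplicit false

namespace Pool.Agent.SCC

variable {I : Type*} [DecidableEq I]

theorem frag_holds (L : ℕ → Finset I) (i : I)
    (hV : ∀ x < 11, Holds PV [L (3 * x), L (3 * x + 1), L (3 * x + 2)])
    (hO : ∀ d < 33, L (fd d) = L d) : Holds PF [L 26, L 29, L 32, L 2, L 14] := by
  have h := run_covered (L := L) progF_ok i (by
    intro q hq
    obtain ⟨z, hz, rfl⟩ := List.mem_map.1 hq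
    have hx : z.1 < 11 := by
      have h1 : ∀ z ∈ ordF, z.1 < 11 := by decide
      exact h1 z hz
    have h2 := hV z.1 hx
    simp only [List.map_cons, List.map_nil]
    rw [hO _ (by omega), hO _ (by omega), hO _ (by omega)]
    exact h2)
  simpa using h

/-- labels from a list -/
def ofL (l : List (Finset I)) (n : ℕ) : Finset I := l.getD n ∅

theorem comp_holds {P Q R : List Pat}
    (hc : (run (progC P Q) [⟨[], [], []⟩]).all (covered R [0, 1, 8, 6, 7]) = true) (i : I)
    {a0 a1 a2 a3 a4 b2 b3 b4 c : Finset I}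
    (h1 : Holds P [a0, a1, a2, a3, a4]) (h2 : Holds Q [a4, a3, b2, b3, b4])
    (h3 : Holds PV [a2, b2, c]) : Holds R [a0, a1, c, b3, b4] := by
  have h := run_covered (L := ofL [a0, a1, a2, a3, a4, b2, b3, b4, c]) hc i (by
    intro q hq
    simp only [progC, List.mem_cons, List.not_mem_nil, or_false] at hq
    rcases hq with rfl | rfl | rfl
    · exact h1
    · exact h2
    · exact h3)
  exact h

def oppT : List ℕ := [3, 16, 62, 0, 6, 19, 4, 22, 27, 15, 20, 24, 18, 23, 59, 9, 1, 21, 12, 5, 10, 17, 7, 13, 11, 30, 26, 8, 31, 29, 25, 28, 174, 36, 49, 95, 33, 39, 52, 37, 55, 60, 48, 53, 57, 51, 56, 92, 42, 34, 54, 45, 38, 43, 50, 40, 46, 44, 63, 14, 41, 64, 2, 58, 61, 99, 69, 82, 131, 66, 72, 85, 70, 88, 93, 81, 86, 90, 84, 89, 128, 75, 67, 87, 78, 71, 76, 83, 73, 79, 77, 96, 47, 74, 97, 35, 91, 94, 100, 65, 98, 171, 105, 118, 164, 102, 108, 121, 106, 124, 129, 117, 122, 126, 120, 125, 161, 111, 103, 123, 114, 107, 112, 119, 109, 115, 113, 132, 80, 110, 133, 68, 127, 130, 168, 138, 151, 137, 135, 141, 154,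 139, 157, 162, 150, 155, 159, 153, 158, 149, 144, 136, 156, 147, 140, 145, 152, 142, 148, 146, 165, 116, 143, 166, 104, 160, 163, 169, 134, 167, 172, 101, 170, 175, 32, 173, 176]

def opp (d : ℕ) : ℕ := oppT.getD d 0

def offs : List ℕ := [0, 11, 22, 34, 45]

theorem opp_fd : ∀ o ∈ offs, ∀ d < 33, 3 * o + fd d = 3 * o + d ∨ 3 * o + fd d = opp (3 * o + d) := by
  decide +kernel

theorem frag_at (L : ℕ → Finset I) (i : I)
    (hV : ∀ x < 59, Holds PV [L (3 * x), L (3 * x + 1), L (3 * x + 2)])
    (hO : ∀ d < 177, L (opp d) = L d) (o : ℕ) (ho : o ∈ offs) :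
    Holds PF [L (3 * o + 26), L (3 * o + 29), L (3 * o + 32), L (3 * o + 2), L (3 * o + 14)] := by
  have hb : o ≤ 45 := by
    have h1 : ∀ o ∈ offs, o ≤ 45 := by decide
    exact h1 o ho
  refine frag_holds (fun d => L (3 * o + d)) i ?_ ?_
  · intro x hx
    have := hV (o + x) (by omega)
    have e : 3 * (o + x) = 3 * o + 3 * x := by ring
    rw [e] at this
    exact this
  · intro d hd
    rcases opp_fd o ho d hd with h | h
    · simp only [h]
    · simp only [h]
      exact hO _ (by omega)

theorem half_false (L : ℕ → Finset I) (i : I)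
    (hV : ∀ x < 59, Holds PV [L (3 * x), L (3 * x + 1), L (3 * x + 2)])
    (hO : ∀ d < 177, L (opp d) = L d) : False := by
  have f0 := frag_at L i hV hO 0 (by decide)
  have f1 := frag_at L i hV hO 11 (by decide)
  have f2 := frag_at L i hV hO 22 (by decide)
  have f3 := frag_at L i hV hO 34 (by decide)
  have f4 := frag_at L i hV hO 45 (by decide)
  have v33 := hV 33 (by norm_num)
  have v56 := hV 56 (by norm_num)
  have v57 := hV 57 (by norm_num)
  have v58 := hV 58 (by norm_num)
  norm_num at f0 f1 f2 f3 f4 v33 v56 v57 v58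
  have O : ∀ d < 177, ∀ e, opp d = e → L e = L d := fun d hd e h => by rw [← h]; exact hO d hd
  have e14 := O 14 (by norm_num) 59 (by decide +kernel)
  have e2 := O 2 (by norm_num) 62 (by decide +kernel)
  have e47 := O 47 (by norm_num) 92 (by decide +kernel)
  have e35 := O 35 (by norm_num) 95 (by decide +kernel)
  have e80 := O 80 (by norm_num) 128 (by decide +kernel)
  have e68 := O 68 (by norm_num) 131 (by decide +kernel)
  have e116 := O 116 (by norm_num) 161 (by decide +kernel)
  have e104 := O 104 (by norm_num) 164 (by decide +kernel)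
  have e99 := O 99 (by norm_num) 65 (by decide +kernel)
  have e100 := O 100 (by norm_num) 98 (by decide +kernel)
  have e101 := O 101 (by norm_num) 171 (by decide +kernel)
  have e168 := O 168 (by norm_num) 134 (by decide +kernel)
  have e169 := O 169 (by norm_num) 167 (by decide +kernel)
  have e170 := O 170 (by norm_num) 172 (by decide +kernel)
  have e173 := O 173 (by norm_num) 175 (by decide +kernel)
  have e174 := O 174 (by norm_num) 32 (by decide +kernel)
  rw [e47, e35] at f2
  rw [← e99, ← e100] at v33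
  have g1 := comp_holds progFF_ok i f1 f2 v33
  rw [e116, e104] at f4
  rw [← e168, ← e169] at v56
  have g2 := comp_holds progFF_ok i f3 f4 v56
  rw [e80, e68] at g2
  rw [e101, e170] at v57
  have g3 := comp_holds progF4_ok i g1 g2 v57
  rw [e14, e2] at g3
  rw [← e174, e173] at v58
  obtain ⟨p, hp, -⟩ := comp_holds progF5_ok i f0 g3 v58
  simp at hp

end Pool.Agent.SCC
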