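import Mathlib

/-!
Symbolic machine for local structures of cycle covers of excess zero (`MP_0735e9_co`).
-/

set_option autoImplicit false

namespace Pool.Agent.SCC

/-- A symbolic state: labelled edges, edges still to be matched, disequalities. -/
structure St where
  lab : List (ℕ × ℕ × ℕ)
  todo : List (ℕ × ℕ × ℕ)
  dis : List (ℕ × ℕ)

/-- A boundary pattern: symbolic labels of the boundary edges, disequalities. -/
structure Pat where
  lab : List (ℕ × ℕ)
  dis : List (ℕ × ℕ)

section sem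
variable {I : Type*} [DecidableEq I]

/-- the set denoted by a symbolic label -/
def den (φ : ℕ → I) (a : ℕ × ℕ) : Finset I := {φ a.1, φ a.2}

def Sat (φ : ℕ → I) (s : St) (L : ℕ → Finset I) : Prop :=
  (∀ e ∈ s.lab, L e.1 = den φ e.2) ∧ (∀ e ∈ s.todo, L e.1 = den φ e.2) ∧
    ∀ d ∈ s.dis, φ d.1 ≠ φ d.2

def PSat (φ : ℕ → I) (p : Pat) (es : List (Finset I)) : Prop :=
  p.lab.map (den φ) = es ∧ ∀ d ∈ p.dis, φ d.1 ≠ φ d.2

/-- some pattern of the list fits the boundary labels -/
def Holds (P : List Pat) (es : List (Finset I)) : Prop :=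
  ∃ p ∈ P, ∃ φ : ℕ → I, PSat φ p es

end sem

def sb (x y z : ℕ) : ℕ := if z == y then x else z

def sbl (x y : ℕ) (e : ℕ × ℕ × ℕ) : ℕ × ℕ × ℕ := (e.1, sb x y e.2.1, sb x y e.2.2)

def St.sub (x y : ℕ) (s : St) : St :=
  ⟨s.lab.map (sbl x y), s.todo.map (sbl x y), s.dis.map (fun d => (sb x y d.1, sb x y d.2))⟩

def memP (a b : ℕ) : List (ℕ × ℕ) → Bool
  | [] => false
  | d :: r => (d.1 == a && d.2 == b) || memP a b r

def eqs (x y : ℕ) (s : St) : Option St :=
  if x == y then some s else
    if memP x y s.dis || memP y x s.dis then none else some (s.sub x y)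

def go (x y z w : ℕ) (s : St) : List St :=
  match eqs x y s with
  | none => []
  | some s1 =>
    match eqs (sb x y z) (sb x y w) s1 with
    | none => []
    | some s2 => [s2]

def unify (m l : ℕ × ℕ) (s : St) : List St :=
  if m.1 == m.2 && l.1 == l.2 then
    match eqs m.1 l.1 s with
    | none => []
    | some s1 => [s1]
  else go m.1 l.1 m.2 l.2 s ++ go m.1 l.2 m.2 l.1 s

def lk (e : ℕ) : List (ℕ × ℕ × ℕ) → Option (ℕ × ℕ)
  | [] => none
  | f :: r => if f.1 == e then some f.2 else lk e r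

def proc : ℕ → St → List St
  | 0, s => [s]
  | n + 1, s =>
    match s.todo with
    | [] => [s]
    | e :: t =>
      match lk e.1 s.lab with
      | none => proc n ⟨e :: s.lab, t, s.dis⟩
      | some m => (unify m e.2 ⟨s.lab, t, s.dis⟩).flatMap (proc n)

def absorb1 (p : Pat) (es : List ℕ) (s : St) : List St :=
  proc es.length
    ⟨s.lab.map (fun e => (e.1, 2 * e.2.1, 2 * e.2.2)),
      (es.zip p.lab).map (fun z => (z.1, 2 * z.2.1 + 1, 2 * z.2.2 + 1)),
      s.dis.map (fun d => (2 * d.1, 2 * d.2)) ++ p.dis.map (fun d => (2 * d.1 + 1, 2 * d.2 + 1))⟩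

def memN (a : ℕ) : List ℕ → Bool
  | [] => false
  | b :: r => b == a || memN a r

def memV (a : ℕ) : List (ℕ × ℕ × ℕ) → Bool
  | [] => false
  | f :: r => f.2.1 == a || f.2.2 == a || memV a r

def St.keep (ks : List ℕ) (s : St) : St :=
  let l := s.lab.filter (fun e => memN e.1 ks)
  ⟨l, s.todo, s.dis.filter (fun d => memV d.1 l && memV d.2 l)⟩

def step (P : List Pat) (es ks : List ℕ) (ss : List St) : List St :=
  ss.flatMap fun s => P.flatMap fun p => (absorb1 p es s).map (St.keep ks)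

def run : List (List Pat × List ℕ × List ℕ) → List St → List St
  | [], ss => ss
  | q :: r, ss => run r (step q.1 q.2.1 q.2.2 ss)

/-! ### coverage by patterns -/

def ap (x : ℕ) : List (ℕ × ℕ) → ℕ
  | [] => 0
  | g :: r => if g.1 == x then g.2 else ap x r

def ext (x a : ℕ) (g : List (ℕ × ℕ)) : List (ℕ × ℕ) → Option (List (ℕ × ℕ))
  | [] => some ((x, a) :: g)
  | h :: r => if h.1 == x then (if h.2 == a then some g else none) else ext x a g r

def cands : List (ℕ × ℕ) → List (ℕ × ℕ) → List (ℕ × ℕ) → List (List (ℕ × ℕ))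
  | [], _, g => [g]
  | _ :: _, [], g => [g]
  | a :: p, b :: q, g =>
    (match ext a.1 b.1 g g with
      | none => []
      | some g1 =>
        match ext a.2 b.2 g1 g1 with
        | none => []
        | some g2 => cands p q g2) ++
    (if b.1 == b.2 || a.1 == a.2 then [] else
      match ext a.1 b.2 g g with
      | none => []
      | some g1 =>
        match ext a.2 b.1 g1 g1 with
        | none => []
        | some g2 => cands p q g2)

def okL (g : List (ℕ × ℕ)) : List (ℕ × ℕ) → List (ℕ × ℕ) → Bool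
  | [], [] => true
  | a :: p, b :: q =>
    ((ap a.1 g == b.1 && ap a.2 g == b.2) || (ap a.1 g == b.2 && ap a.2 g == b.1)) && okL g p q
  | _, _ => false

def okD (g : List (ℕ × ℕ)) (dis : List (ℕ × ℕ)) : List (ℕ × ℕ) → Bool
  | [] => true
  | d :: r => (memP (ap d.1 g) (ap d.2 g) dis || memP (ap d.2 g) (ap d.1 g) dis) && okD g dis r

def lkAll (lab : List (ℕ × ℕ × ℕ)) : List ℕ → Option (List (ℕ × ℕ))
  | [] => some []
  | b :: r =>
    match lk b lab with
    | none => none
    | some m =>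
      match lkAll lab r with
      | none => none
      | some l => some (m :: l)

def covered (P : List Pat) (bs : List ℕ) (s : St) : Bool :=
  match lkAll s.lab bs with
  | none => false
  | some sl => P.any fun p => (cands p.lab sl []).any fun g => okL g p.lab sl && okD g s.dis p.dis

/-! ### soundness -/

section snd
set_option linter.unusedSectionVars false
variable {I : Type*} [DecidableEq I]

theorem memP_iff {a b : ℕ} : ∀ {l : List (ℕ × ℕ)}, memP a b l = true → (a, b) ∈ l
  | [], h => by simp [memP] at h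
  | d :: r, h => by
    simp only [memP, Bool.or_eq_true, Bool.and_eq_true, beq_iff_eq] at h
    rcases h with ⟨h1, h2⟩ | h
    · have : d = (a, b) := Prod.ext h1 h2
      simp [this]
    · exact List.mem_cons_of_mem _ (memP_iff h)

theorem sb_phi {φ : ℕ → I} {x y : ℕ} (h : φ x = φ y) (z : ℕ) : φ (sb x y z) = φ z := by
  unfold sb
  split_ifs with h1
  · rw [beq_iff_eq] at h1; rw [h, h1]
  · rfl

theorem sub_sat {φ : ℕ → I} {x y : ℕ} {s : St} {L : ℕ → Finset I} (h : φ x = φ y)
    (hs : Sat φ s L) : Sat φ (s.sub x y) L := by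
  obtain ⟨h1, h2, h3⟩ := hs
  refine ⟨?_, ?_, ?_⟩
  · intro e he
    simp only [St.sub, List.mem_map] at he
    obtain ⟨f, hf, rfl⟩ := he
    simp only [sbl, den, sb_phi h]
    exact h1 f hf
  · intro e he
    simp only [St.sub, List.mem_map] at he
    obtain ⟨f, hf, rfl⟩ := he
    simp only [sbl, den, sb_phi h]
    exact h2 f hf
  · intro e he
    simp only [St.sub, List.mem_map] at he
    obtain ⟨f, hf, rfl⟩ := he
    simp only [sb_phi h]
    exact h3 f hf

theorem eqs_sat {φ : ℕ → I} {x y : ℕ} {s : St} {L : ℕ → Finset I} (h : φ x = φ y)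
    (hs : Sat φ s L) : ∃ s', eqs x y s = some s' ∧ Sat φ s' L ∧
      ∀ z, φ (sb x y z) = φ z := by
  unfold eqs
  split_ifs with h1 h2
  · exact ⟨s, rfl, hs, sb_phi h⟩
  · exfalso
    rw [Bool.or_eq_true] at h2
    rcases h2 with h2 | h2
    · exact hs.2.2 _ (memP_iff h2) h
    · exact hs.2.2 _ (memP_iff h2) h.symm
  · exact ⟨_, rfl, sub_sat h hs, sb_phi h⟩

theorem go_sat {φ : ℕ → I} {x y z w : ℕ} {s : St} {L : ℕ → Finset I} (h : φ x = φ y)
    (h' : φ z = φ w) (hs : Sat φ s L) : ∃ s' ∈ go x y z w s, Sat φ s' L := by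
  obtain ⟨s1, e1, hs1, hz⟩ := eqs_sat h hs
  have h2 : φ (sb x y z) = φ (sb x y w) := by rw [hz, hz, h']
  obtain ⟨s2, e2, hs2, -⟩ := eqs_sat h2 hs1
  refine ⟨s2, ?_, hs2⟩
  simp [go, e1, e2]

theorem unify_sat {φ : ℕ → I} {m l : ℕ × ℕ} {s : St} {L : ℕ → Finset I}
    (h : den φ m = den φ l) (hs : Sat φ s L) : ∃ s' ∈ unify m l s, Sat φ s' L := by
  unfold unify
  split_ifs with h1
  · simp only [Bool.and_eq_true, beq_iff_eq] at h1
    have h2 : φ m.1 = φ l.1 := by
      unfold den at h
      rw [← h1.1, ← h1.2] at h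
      simpa using h
    obtain ⟨s1, e1, hs1, -⟩ := eqs_sat h2 hs
    exact ⟨s1, by simp [e1], hs1⟩
  · have h2 : (φ m.1 = φ l.1 ∧ φ m.2 = φ l.2) ∨ (φ m.1 = φ l.2 ∧ φ m.2 = φ l.1) := by
      unfold den at h
      have a1 : φ m.1 ∈ ({φ l.1, φ l.2} : Finset I) := by rw [← h]; simp
      have a2 : φ m.2 ∈ ({φ l.1, φ l.2} : Finset I) := by rw [← h]; simp
      have a3 : φ l.1 ∈ ({φ m.1, φ m.2} : Finset I) := by rw [h]; simp
      have a4 : φ l.2 ∈ ({φ m.1, φ m.2} : Finset I) := by rw [h]; simp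
      simp only [Finset.mem_insert, Finset.mem_singleton] at a1 a2 a3 a4
      rcases a1 with a1 | a1
      · rcases a2 with a2 | a2
        · rcases a4 with a4 | a4
          · exact Or.inl ⟨a1, by rw [a2, ← a1, ← a4]⟩
          · exact Or.inl ⟨a1, a4.symm⟩
        · exact Or.inl ⟨a1, a2⟩
      · rcases a2 with a2 | a2
        · exact Or.inr ⟨a1, a2⟩
        · rcases a3 with a3 | a3
          · exact Or.inr ⟨a1, by rw [a2, ← a1, ← a3]⟩
          · exact Or.inr ⟨a1, a3.symm⟩
    rcases h2 with ⟨h3, h4⟩ | ⟨h3, h4⟩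
    · obtain ⟨s', hs', hs''⟩ := go_sat h3 h4 hs
      exact ⟨s', List.mem_append_left _ hs', hs''⟩
    · obtain ⟨s', hs', hs''⟩ := go_sat h3 h4 hs
      exact ⟨s', List.mem_append_right _ hs', hs''⟩

theorem lk_mem {e : ℕ} {m : ℕ × ℕ} : ∀ {l : List (ℕ × ℕ × ℕ)}, lk e l = some m → (e, m) ∈ l
  | [], h => by simp [lk] at h
  | f :: r, h => by
    unfold lk at h
    split_ifs at h with h1
    · rw [beq_iff_eq] at h1
      simp only [Option.some.injEq] at h
      have : f = (e, m) := by rw [← h1, ← h]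
      simp [this]
    · exact List.mem_cons_of_mem _ (lk_mem h)

theorem proc_sat {φ : ℕ → I} {L : ℕ → Finset I} : ∀ (n : ℕ) (s : St), Sat φ s L →
    ∃ s' ∈ proc n s, Sat φ s' L
  | 0, s, hs => ⟨s, by simp [proc], hs⟩
  | n + 1, s, hs => by
    obtain ⟨lab, todo, dis⟩ := s
    cases todo with
    | nil => exact ⟨_, by simp [proc], hs⟩
    | cons e t =>
      obtain ⟨h1, h2, h3⟩ := hs
      cases hl : lk e.1 lab with
      | none =>
        have hs' : Sat φ ⟨e :: lab, t, dis⟩ L := by
          refine ⟨?_, ?_, h3⟩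
          · intro f hf
            rcases List.mem_cons.1 hf with rfl | hf
            · exact h2 _ (List.mem_cons_self ..)
            · exact h1 f hf
          · intro f hf
            exact h2 f (List.mem_cons_of_mem _ hf)
        obtain ⟨s', hs1, hs2⟩ := proc_sat n _ hs'
        refine ⟨s', ?_, hs2⟩
        simp only [proc, hl]
        exact hs1
      | some m =>
        have hm := h1 _ (lk_mem hl)
        have he := h2 e (List.mem_cons_self ..)
        have hs' : Sat φ ⟨lab, t, dis⟩ L :=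
          ⟨h1, fun f hf => h2 f (List.mem_cons_of_mem _ hf), h3⟩
        obtain ⟨s1, hs1, hs2⟩ := unify_sat (m := m) (l := e.2) (by
          simp only at hm he; rw [← hm, ← he]) hs'
        obtain ⟨s', hs3, hs4⟩ := proc_sat n s1 hs2
        refine ⟨s', ?_, hs4⟩
        simp only [proc, hl]
        exact List.mem_flatMap.2 ⟨s1, hs1, hs3⟩

/-- combination of two valuations -/
def mix (φ ψ : ℕ → I) (z : ℕ) : I := if z % 2 = 0 then φ (z / 2) else ψ (z / 2)

theorem mix_even (φ ψ : ℕ → I) (z : ℕ) : mix φ ψ (2 * z) = φ z := by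
  unfold mix
  rw [if_pos (by omega)]
  congr 1
  omega

theorem mix_odd (φ ψ : ℕ → I) (z : ℕ) : mix φ ψ (2 * z + 1) = ψ z := by
  unfold mix
  rw [if_neg (by omega)]
  congr 1
  omega

theorem zip_sat {ψ : ℕ → I} {L : ℕ → Finset I} : ∀ (es : List ℕ) (pl : List (ℕ × ℕ)),
    pl.map (den ψ) = es.map L → ∀ z ∈ es.zip pl, L z.1 = den ψ z.2
  | [], _, _ => by simp
  | _ :: _, [], _ => by simp
  | e :: es, a :: pl, h => by
    intro z hz
    simp only [List.map_cons, List.cons.injEq] at h
    rw [List.zip_cons_cons, List.mem_cons] at hz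
    rcases hz with rfl | hz
    · exact h.1.symm
    · exact zip_sat es pl h.2 z hz

theorem absorb1_sat {φ ψ : ℕ → I} {L : ℕ → Finset I} {s : St} {p : Pat} {es : List ℕ}
    (hs : Sat φ s L) (hp : PSat ψ p (es.map L)) :
    ∃ s' ∈ absorb1 p es s, Sat (mix φ ψ) s' L := by
  apply proc_sat
  refine ⟨?_, ?_, ?_⟩
  · intro e he
    simp only [List.mem_map] at he
    obtain ⟨f, hf, rfl⟩ := he
    simp only [den, mix_even]
    exact hs.1 f hf
  · intro e he
    simp only [List.mem_map] at he
    obtain ⟨z, hz, rfl⟩ := he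
    simp only [den, mix_odd]
    exact zip_sat es p.lab hp.1 z hz
  · intro d hd
    rw [List.mem_append] at hd
    rcases hd with hd | hd
    · simp only [List.mem_map] at hd
      obtain ⟨f, hf, rfl⟩ := hd
      simp only [mix_even]
      exact hs.2.2 f hf
    · simp only [List.mem_map] at hd
      obtain ⟨f, hf, rfl⟩ := hd
      simp only [mix_odd]
      exact hp.2 f hf

theorem keep_sat {φ : ℕ → I} {s : St} {L : ℕ → Finset I} (ks : List ℕ) (hs : Sat φ s L) :
    Sat φ (s.keep ks) L := by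
  obtain ⟨h1, h2, h3⟩ := hs
  refine ⟨?_, h2, ?_⟩
  · intro e he
    exact h1 e (List.mem_of_mem_filter he)
  · intro d hd
    exact h3 d (List.mem_of_mem_filter hd)

/-- some state of the list is satisfied -/
def SatL (ss : List St) (L : ℕ → Finset I) : Prop := ∃ s ∈ ss, ∃ φ : ℕ → I, Sat φ s L

theorem step_sat {P : List Pat} {es ks : List ℕ} {ss : List St} {L : ℕ → Finset I}
    (h : SatL ss L) (hP : Holds P (es.map L)) : SatL (step P es ks ss) L := by
  obtain ⟨s, hs, φ, hφ⟩ := h
  obtain ⟨p, hp, ψ, hψ⟩ := hP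
  obtain ⟨s', hs', h'⟩ := absorb1_sat hφ hψ
  refine ⟨s'.keep ks, ?_, _, keep_sat ks h'⟩
  unfold step
  refine List.mem_flatMap.2 ⟨s, hs, List.mem_flatMap.2 ⟨p, hp, ?_⟩⟩
  exact List.mem_map.2 ⟨s', hs', rfl⟩

theorem run_sat {L : ℕ → Finset I} : ∀ (prog : List (List Pat × List ℕ × List ℕ)) (ss : List St),
    SatL ss L → (∀ q ∈ prog, Holds q.1 (q.2.1.map L)) → SatL (run prog ss) L
  | [], ss, h, _ => h
  | q :: r, ss, h, hq => by
    unfold run
    exact run_sat r _ (step_sat h (hq q (List.mem_cons_self ..)))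
      (fun q' hq' => hq q' (List.mem_cons_of_mem _ hq'))

theorem lkAll_sat {φ : ℕ → I} {L : ℕ → Finset I} {lab : List (ℕ × ℕ × ℕ)}
    (h : ∀ e ∈ lab, L e.1 = den φ e.2) : ∀ (bs : List ℕ) (sl : List (ℕ × ℕ)),
    lkAll lab bs = some sl → bs.map L = sl.map (den φ)
  | [], sl, e => by
    simp only [lkAll, Option.some.injEq] at e
    simp [← e]
  | b :: r, sl, e => by
    unfold lkAll at e
    cases h1 : lk b lab with
    | none => simp [h1] at e
    | some m =>
      cases h2 : lkAll lab r with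
      | none => simp [h1, h2] at e
      | some l =>
        simp only [h1, h2, Option.some.injEq] at e
        subst e
        rw [List.map_cons, List.map_cons, lkAll_sat h r l h2, h _ (lk_mem h1)]

theorem den_swap (φ : ℕ → I) (a b : ℕ) : den φ (a, b) = den φ (b, a) := by
  unfold den
  exact Finset.pair_comm _ _

theorem okL_sat {φ : ℕ → I} {g : List (ℕ × ℕ)} : ∀ (pl sl : List (ℕ × ℕ)),
    okL g pl sl = true → pl.map (den fun x => φ (ap x g)) = sl.map (den φ)
  | [], [], _ => rfl
  | [], _ :: _, h => by simp [okL] at h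
  | _ :: _, [], h => by simp [okL] at h
  | a :: p, b :: q, h => by
    simp only [okL, Bool.and_eq_true, Bool.or_eq_true, beq_iff_eq] at h
    rw [List.map_cons, List.map_cons, okL_sat p q h.2]
    congr 1
    rcases h.1 with ⟨h1, h2⟩ | ⟨h1, h2⟩
    · simp only [den, h1, h2]
    · simp only [den, h1, h2]
      exact Finset.pair_comm _ _

theorem okD_sat {φ : ℕ → I} {g dis : List (ℕ × ℕ)} (hd : ∀ d ∈ dis, φ d.1 ≠ φ d.2) :
    ∀ (pd : List (ℕ × ℕ)), okD g dis pd = true → ∀ d ∈ pd, φ (ap d.1 g) ≠ φ (ap d.2 g)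
  | [], _ => by simp
  | e :: r, h => by
    simp only [okD, Bool.and_eq_true, Bool.or_eq_true] at h
    intro d hd'
    rcases List.mem_cons.1 hd' with rfl | hd'
    · rcases h.1 with h1 | h1
      · exact hd _ (memP_iff h1)
      · exact (hd _ (memP_iff h1)).symm
    · exact okD_sat hd r h.2 d hd'

theorem covered_sat {φ : ℕ → I} {L : ℕ → Finset I} {P : List Pat} {bs : List ℕ} {s : St}
    (hs : Sat φ s L) (h : covered P bs s = true) : Holds P (bs.map L) := by
  unfold covered at h
  cases hl : lkAll s.lab bs with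
  | none => simp [hl] at h
  | some sl =>
    simp only [hl, List.any_eq_true, Bool.and_eq_true] at h
    obtain ⟨p, hp, g, -, h1, h2⟩ := h
    refine ⟨p, hp, fun x => φ (ap x g), ?_, ?_⟩
    · rw [lkAll_sat hs.1 bs sl hl]
      exact okL_sat _ _ h1
    · exact okD_sat hs.2.2 _ h2

/-- main soundness statement -/
theorem run_covered {L : ℕ → Finset I} {prog : List (List Pat × List ℕ × List ℕ)}
    {P : List Pat} {bs : List ℕ}
    (hc : (run prog [⟨[], [], []⟩]).all (covered P bs) = true) (i : I)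
    (hq : ∀ q ∈ prog, Holds q.1 (q.2.1.map L)) : Holds P (bs.map L) := by
  have h0 : SatL [⟨[], [], []⟩] L := ⟨_, List.mem_singleton.2 rfl, fun _ => i, by
    refine ⟨?_, ?_, ?_⟩ <;> intro e he <;> simp at he⟩
  obtain ⟨s, hs, φ, hφ⟩ := run_sat prog _ h0 hq
  exact covered_sat hφ (List.all_eq_true.1 hc s hs)

end snd

end Pool.Agent.SCC
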