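import Pool.Agent.SCC.Cover
import Pool.Agent.SCC.Girth
import Pool.Agent.SCC.Cut

/-! Cycle witnesses and the final statement. -/

set_option autoImplicit false

namespace Pool.Agent.SCC

variable {n : ℕ}

theorem witness (T : Set (VG n)) (h : ¬ ((GG n).induce T).IsAcyclic) :
    ∃ U : Finset (VG n), U.Nonempty ∧ (∀ u ∈ U, u ∈ T) ∧
      ∀ u ∈ U, ∃ s t : Fin 3, s ≠ t ∧ nbr u s ∈ U ∧ nbr u t ∈ U := by
  classical
  unfold SimpleGraph.IsAcyclic at h
  push Not at h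
  obtain ⟨v, c, hc⟩ := h
  refine ⟨c.support.toFinset.image Subtype.val, ?_, ?_, ?_⟩
  · exact ⟨v.val, Finset.mem_image.2 ⟨v, by simp, rfl⟩⟩
  · intro u hu
    obtain ⟨w, -, rfl⟩ := Finset.mem_image.1 hu
    exact w.2
  · intro u hu
    obtain ⟨w, hw, rfl⟩ := Finset.mem_image.1 hu
    rw [List.mem_toFinset] at hw
    have h2 := hc.ncard_neighborSet_toSubgraph_eq_two hw
    obtain ⟨x, y, hxy, hset⟩ := Set.ncard_eq_two.1 h2
    have key : ∀ z, z ∈ c.toSubgraph.neighborSet w →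
        ∃ s : Fin 3, nbr w.val s = z.val ∧ z.val ∈ c.support.toFinset.image Subtype.val := by
      intro z hz
      have hadj : c.toSubgraph.Adj w z := hz
      have h3 := hadj.adj_sub
      have h4 : (GG n).Adj w.val z.val := h3
      obtain ⟨s, hs⟩ := h4
      refine ⟨s, hs, Finset.mem_image.2 ⟨z, ?_, rfl⟩⟩
      rw [List.mem_toFinset, ← SimpleGraph.Walk.mem_verts_toSubgraph]
      exact hadj.snd_mem
    obtain ⟨s, hs, hs'⟩ := key x (by rw [hset]; simp)
    obtain ⟨t, ht, ht'⟩ := key y (by rw [hset]; simp)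
    refine ⟨s, t, ?_, by rw [hs]; exact hs', by rw [ht]; exact ht'⟩
    rintro rfl
    exact hxy (Subtype.ext (hs.symm.trans ht))

theorem final : ¬ (∀ ε : ℝ, 0 < ε → ∃ N : ℕ, ∀ (V : Type) [Fintype V] [DecidableEq V]
      (G : SimpleGraph V) [DecidableRel G.Adj],
      G.IsRegularOfDegree 3 →
      5 ≤ G.girth →
      ¬ G.lineGraph.Colorable 3 →
      (∀ S : Finset V, ¬ (G.induce (S : Set V)).IsAcyclic →
        ¬ (G.induce ((S : Set V)ᶜ)).IsAcyclic →
        4 ≤ (Finset.univ.filter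
              (fun p : V × V => p.1 ∈ S ∧ p.2 ∉ S ∧ G.Adj p.1 p.2)).card) →
      N ≤ G.edgeFinset.card →
      ∃ (k : ℕ) (C : Fin k → Finset (Sym2 V)),
        (∀ i, C i ⊆ G.edgeFinset) ∧
        (∀ i, ∀ v : V, Even ((C i).filter (fun e => v ∈ e)).card) ∧
        (∀ e ∈ G.edgeFinset, ∃ i, e ∈ C i) ∧
        (((∑ i, (C i).card : ℕ)) : ℝ) ≤ (4 / 3 + ε) * (G.edgeFinset.card : ℝ)) := by
  intro h
  obtain ⟨N, hN⟩ := h (1 / 100) (by norm_num)
  obtain ⟨k, C, h1, h2, h3, h4⟩ := hN (VG N) (GG N) regular girth_ge not_colorable (by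
    intro S hS hS'
    obtain ⟨U, a1, a2, a3⟩ := witness _ hS
    obtain ⟨U', b1, b2, b3⟩ := witness _ hS'
    exact cut_main S U U' a1 (fun u hu => by simpa using a2 u hu) a3 b1
      (fun u hu => by have := b2 u hu; simpa using this) b3) (by rw [card_edges]; omega)
  have h5 := sum_lower C h1 h2 h3
  rw [card_edges] at h4
  have h6 : (238 * ((N : ℝ) + 1)) ≤ ((∑ i, (C i).card : ℕ) : ℝ) := by exact_mod_cast h5
  push_cast at h4 h6
  have h7 : (0 : ℝ) ≤ N := Nat.cast_nonneg N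
  nlinarith

end Pool.Agent.SCC
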