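import Pool.Agent.SCC.Machine

/-! Boundary patterns of the Petersen fragment and of the composed pieces. -/

set_option autoImplicit false

namespace Pool.Agent.SCC

/-- the patterns at a vertex -/
def PV : List Pat := [⟨[(0, 0), (1, 1), (0, 1)], [(0, 1)]⟩, ⟨[(0, 0), (0, 1), (1, 1)], [(0, 1)]⟩,
  ⟨[(0, 1), (0, 0), (1, 1)], [(0, 1)]⟩]

/-- patterns of the Petersen fragment -/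
def PF : List Pat := [⟨[(0, 0), (1, 1), (1, 0), (2, 3), (2, 3)], [(0, 1), (0, 2), (1, 3), (2, 3)]⟩,
  ⟨[(0, 0), (1, 1), (2, 0), (3, 1), (3, 2)], [(0, 1), (0, 2), (0, 3), (1, 2), (1, 3), (2, 3)]⟩,
  ⟨[(0, 0), (0, 0), (1, 2), (3, 2), (3, 1)], [(0, 1), (0, 2), (0, 3), (1, 2), (1, 3), (2, 3)]⟩,
  ⟨[(0, 0), (1, 1), (1, 2), (3, 2), (3, 0)], [(0, 1), (0, 2), (0, 3), (1, 2), (1, 3), (2, 3)]⟩,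
  ⟨[(0, 0), (1, 1), (1, 2), (0, 3), (2, 3)], [(0, 1), (0, 2), (0, 3), (1, 2), (1, 3), (2, 3)]⟩,
  ⟨[(0, 0), (1, 1), (2, 0), (2, 3), (1, 3)], [(0, 1), (0, 2), (0, 3), (1, 2), (1, 3), (2, 3)]⟩,
  ⟨[(0, 0), (1, 1), (2, 3), (0, 1), (3, 2)], [(0, 1), (0, 2), (0, 3), (1, 2), (1, 3), (2, 3)]⟩,
  ⟨[(0, 0), (1, 1), (2, 3), (0, 3), (1, 2)], [(0, 1), (0, 2), (0, 3), (1, 2), (1, 3), (2, 3)]⟩,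
  ⟨[(0, 0), (1, 1), (2, 3), (2, 1), (3, 0)], [(0, 1), (0, 2), (0, 3), (1, 2), (1, 3), (2, 3)]⟩,
  ⟨[(0, 0), (1, 1), (2, 3), (2, 3), (1, 0)], [(0, 1), (0, 2), (0, 3), (1, 2), (1, 3), (2, 3)]⟩,
  ⟨[(0, 0), (1, 2), (3, 2), (3, 1), (0, 0)], [(0, 1), (0, 3), (1, 2), (1, 3), (2, 3)]⟩,
  ⟨[(0, 0), (1, 1), (2, 2), (1, 2), (0, 0)], [(0, 1), (0, 2), (1, 2)]⟩,
  ⟨[(0, 0), (1, 2), (3, 2), (0, 1), (3, 3)], [(0, 1), (0, 3), (1, 2), (1, 3), (2, 3)]⟩,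
  ⟨[(0, 0), (1, 1), (2, 2), (0, 2), (1, 1)], [(0, 1), (0, 2), (1, 2)]⟩,
  ⟨[(0, 0), (1, 2), (3, 2), (3, 0), (1, 1)], [(0, 1), (0, 3), (1, 2), (1, 3), (2, 3)]⟩,
  ⟨[(0, 0), (1, 1), (2, 2), (1, 0), (2, 2)], [(0, 1), (0, 2), (1, 2)]⟩,
  ⟨[(0, 0), (1, 1), (1, 0), (2, 2), (2, 2)], [(0, 1), (0, 2)]⟩,
  ⟨[(0, 0), (1, 1), (1, 0), (2, 2), (2, 2)], [(0, 1), (1, 2)]⟩,
  ⟨[(0, 0), (1, 1), (1, 2), (2, 2), (0, 0)], [(0, 1), (1, 2)]⟩,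
  ⟨[(0, 0), (0, 0), (1, 2), (2, 2), (1, 1)], [(0, 1), (0, 2), (1, 2)]⟩,
  ⟨[(0, 0), (1, 1), (2, 0), (1, 1), (2, 2)], [(0, 1), (0, 2)]⟩,
  ⟨[(0, 0), (1, 2), (3, 2), (0, 0), (3, 1)], [(0, 1), (0, 3), (1, 2), (1, 3), (2, 3)]⟩,
  ⟨[(0, 0), (1, 1), (2, 2), (0, 0), (1, 2)], [(0, 1), (0, 2), (1, 2)]⟩,
  ⟨[(0, 0), (1, 2), (3, 2), (3, 3), (0, 1)], [(0, 1), (0, 3), (1, 2), (1, 3), (2, 3)]⟩,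
  ⟨[(0, 0), (1, 1), (2, 2), (1, 1), (0, 2)], [(0, 1), (0, 2), (1, 2)]⟩,
  ⟨[(0, 0), (1, 2), (3, 2), (1, 1), (3, 0)], [(0, 1), (0, 3), (1, 2), (1, 3), (2, 3)]⟩,
  ⟨[(0, 0), (1, 1), (2, 2), (2, 2), (1, 0)], [(0, 1), (0, 2), (1, 2)]⟩,
  ⟨[(0, 0), (1, 1), (2, 0), (2, 2), (1, 1)], [(0, 1), (0, 2)]⟩,
  ⟨[(0, 0), (1, 1), (1, 2), (0, 0), (2, 2)], [(0, 1), (1, 2)]⟩,
  ⟨[(0, 1), (0, 2), (1, 2), (3, 4), (3, 4)], [(0, 1), (0, 2), (0, 3), (1, 2), (3, 4)]⟩,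
  ⟨[(0, 1), (1, 1), (0, 0), (2, 3), (2, 3)], [(0, 1), (0, 2), (2, 3)]⟩,
  ⟨[(0, 0), (1, 0), (1, 1), (2, 3), (2, 3)], [(0, 1), (1, 2), (2, 3)]⟩,
  ⟨[(0, 1), (2, 3), (1, 3), (2, 4), (0, 4)], [(0, 1), (0, 4), (1, 3), (2, 3), (2, 4)]⟩,
  ⟨[(0, 1), (2, 2), (2, 2), (1, 3), (0, 3)], [(0, 1), (0, 3), (1, 2), (1, 3)]⟩,
  ⟨[(0, 1), (1, 1), (2, 2), (2, 3), (0, 3)], [(0, 1), (0, 3), (1, 2), (2, 3)]⟩,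
  ⟨[(0, 0), (1, 2), (0, 0), (1, 3), (2, 3)], [(0, 2), (1, 2), (1, 3), (2, 3)]⟩,
  ⟨[(0, 0), (1, 0), (2, 2), (1, 3), (2, 3)], [(0, 1), (0, 2), (1, 3), (2, 3)]⟩,
  ⟨[(0, 1), (2, 2), (1, 3), (0, 0), (2, 3)], [(0, 1), (0, 2), (0, 3), (1, 3), (2, 3)]⟩,
  ⟨[(0, 1), (2, 2), (1, 3), (3, 3), (2, 0)], [(0, 1), (0, 2), (0, 3), (1, 3), (2, 3)]⟩,
  ⟨[(0, 1), (2, 2), (1, 3), (2, 2), (3, 0)], [(0, 1), (0, 2), (0, 3), (1, 3), (2, 3)]⟩,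
  ⟨[(0, 1), (0, 2), (1, 2), (3, 3), (3, 3)], [(0, 1), (0, 2), (1, 2)]⟩,
  ⟨[(0, 1), (1, 1), (0, 0), (2, 2), (2, 2)], [(0, 1)]⟩,
  ⟨[(0, 0), (1, 0), (1, 1), (2, 2), (2, 2)], [(0, 1)]⟩,
  ⟨[(0, 1), (2, 2), (1, 3), (0, 3), (2, 2)], [(0, 1), (0, 2), (0, 3), (1, 3), (2, 3)]⟩,
  ⟨[(0, 1), (2, 2), (1, 3), (0, 2), (3, 3)], [(0, 1), (0, 2), (0, 3), (1, 3), (2, 3)]⟩,
  ⟨[(0, 1), (2, 2), (1, 3), (2, 3), (0, 0)], [(0, 1), (0, 2), (0, 3), (1, 3), (2, 3)]⟩,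
  ⟨[(0, 1), (2, 3), (1, 3), (4, 0), (4, 2)], [(0, 1), (0, 4), (1, 3), (2, 3), (2, 4)]⟩,
  ⟨[(0, 1), (2, 2), (2, 2), (3, 0), (3, 1)], [(0, 1), (0, 3), (1, 2), (1, 3)]⟩,
  ⟨[(0, 1), (1, 1), (2, 2), (3, 0), (3, 2)], [(0, 1), (0, 3), (1, 2), (2, 3)]⟩,
  ⟨[(0, 0), (1, 2), (0, 0), (3, 2), (3, 1)], [(0, 2), (1, 2), (1, 3), (2, 3)]⟩,
  ⟨[(0, 0), (1, 0), (2, 2), (3, 2), (3, 1)], [(0, 1), (0, 2), (1, 3), (2, 3)]⟩]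

def PFF : List Pat := [⟨[(0, 0), (1, 1), (2, 2), (2, 1), (0, 0)], [(0, 1), (0, 2), (1, 2)]⟩,
  ⟨[(0, 0), (1, 1), (2, 2), (0, 1), (2, 2)], [(0, 1), (0, 2), (1, 2)]⟩,
  ⟨[(0, 0), (1, 1), (2, 2), (2, 0), (1, 1)], [(0, 1), (0, 2), (1, 2)]⟩,
  ⟨[(0, 0), (1, 1), (2, 2), (0, 0), (2, 1)], [(0, 1), (0, 2), (1, 2)]⟩,
  ⟨[(0, 0), (1, 1), (2, 2), (2, 2), (0, 1)], [(0, 1), (0, 2), (1, 2)]⟩,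
  ⟨[(0, 0), (1, 1), (2, 2), (1, 1), (2, 0)], [(0, 1), (0, 2), (1, 2)]⟩,
  ⟨[(0, 0), (1, 1), (2, 0), (1, 3), (2, 3)], [(0, 1), (0, 2), (1, 2), (1, 3), (2, 3)]⟩,
  ⟨[(0, 0), (1, 1), (2, 0), (2, 3), (1, 3)], [(0, 1), (0, 2), (1, 2), (1, 3), (2, 3)]⟩,
  ⟨[(0, 0), (1, 2), (2, 2), (0, 3), (1, 3)], [(0, 1), (0, 3), (1, 2), (1, 3)]⟩,
  ⟨[(0, 0), (1, 2), (2, 2), (1, 3), (0, 3)], [(0, 1), (0, 3), (1, 2), (1, 3)]⟩,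
  ⟨[(0, 0), (1, 1), (2, 1), (0, 3), (2, 3)], [(0, 1), (0, 2), (0, 3), (1, 2), (2, 3)]⟩,
  ⟨[(0, 0), (1, 1), (2, 1), (2, 3), (0, 3)], [(0, 1), (0, 2), (0, 3), (1, 2), (2, 3)]⟩,
  ⟨[(0, 1), (1, 1), (2, 2), (0, 3), (2, 3)], [(0, 1), (0, 2), (0, 3), (2, 3)]⟩,
  ⟨[(0, 1), (1, 1), (2, 2), (2, 3), (0, 3)], [(0, 1), (0, 2), (0, 3), (2, 3)]⟩,
  ⟨[(0, 0), (1, 0), (2, 2), (1, 3), (2, 3)], [(0, 1), (1, 2), (1, 3), (2, 3)]⟩,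
  ⟨[(0, 0), (1, 0), (2, 2), (2, 3), (1, 3)], [(0, 1), (1, 2), (1, 3), (2, 3)]⟩,
  ⟨[(0, 1), (0, 0), (1, 1), (2, 3), (2, 3)], [(0, 1), (2, 3)]⟩,
  ⟨[(0, 1), (0, 0), (1, 1), (2, 2), (2, 2)], [(0, 1)]⟩,
  ⟨[(0, 0), (0, 1), (1, 1), (2, 3), (2, 3)], [(0, 1), (2, 3)]⟩,
  ⟨[(0, 0), (0, 1), (1, 1), (2, 2), (2, 2)], [(0, 1)]⟩,
  ⟨[(0, 1), (2, 2), (1, 1), (0, 3), (2, 3)], [(0, 1), (0, 2), (0, 3), (2, 3)]⟩,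
  ⟨[(0, 1), (2, 2), (1, 1), (2, 3), (0, 3)], [(0, 1), (0, 2), (0, 3), (2, 3)]⟩,
  ⟨[(0, 1), (1, 1), (2, 2), (2, 2), (0, 0)], [(0, 1), (0, 2)]⟩,
  ⟨[(0, 1), (1, 1), (2, 2), (0, 0), (2, 2)], [(0, 1), (0, 2)]⟩,
  ⟨[(0, 0), (1, 0), (2, 2), (2, 2), (1, 1)], [(0, 1), (1, 2)]⟩,
  ⟨[(0, 0), (1, 0), (2, 2), (1, 1), (2, 2)], [(0, 1), (1, 2)]⟩]

def PF4 : List Pat := [⟨[(0, 0), (1, 1), (2, 1), (0, 3), (2, 3)], [(0, 1), (0, 2), (0, 3), (1, 2), (2, 3)]⟩,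
  ⟨[(0, 0), (1, 1), (2, 1), (2, 3), (0, 3)], [(0, 1), (0, 2), (0, 3), (1, 2), (2, 3)]⟩,
  ⟨[(0, 0), (1, 1), (2, 0), (2, 3), (1, 3)], [(0, 1), (0, 2), (1, 2), (1, 3), (2, 3)]⟩,
  ⟨[(0, 0), (1, 1), (2, 0), (1, 3), (2, 3)], [(0, 1), (0, 2), (1, 2), (1, 3), (2, 3)]⟩,
  ⟨[(0, 1), (1, 1), (2, 3), (3, 2), (0, 0)], [(0, 1), (0, 2), (0, 3), (2, 3)]⟩,
  ⟨[(0, 1), (1, 1), (2, 3), (0, 2), (3, 3)], [(0, 1), (0, 2), (0, 3), (2, 3)]⟩,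
  ⟨[(0, 1), (1, 1), (2, 3), (0, 0), (3, 2)], [(0, 1), (0, 2), (0, 3), (2, 3)]⟩,
  ⟨[(0, 1), (1, 1), (2, 3), (3, 3), (0, 2)], [(0, 1), (0, 2), (0, 3), (2, 3)]⟩,
  ⟨[(0, 1), (1, 1), (2, 2), (0, 3), (2, 3)], [(0, 1), (0, 2), (0, 3), (2, 3)]⟩,
  ⟨[(0, 1), (1, 1), (2, 2), (2, 3), (0, 3)], [(0, 1), (0, 2), (0, 3), (2, 3)]⟩,
  ⟨[(0, 0), (1, 0), (2, 3), (3, 2), (1, 1)], [(0, 1), (1, 2), (1, 3), (2, 3)]⟩,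
  ⟨[(0, 0), (1, 0), (2, 3), (1, 2), (3, 3)], [(0, 1), (1, 2), (1, 3), (2, 3)]⟩,
  ⟨[(0, 0), (1, 0), (2, 3), (1, 1), (3, 2)], [(0, 1), (1, 2), (1, 3), (2, 3)]⟩,
  ⟨[(0, 0), (1, 0), (2, 3), (3, 3), (1, 2)], [(0, 1), (1, 2), (1, 3), (2, 3)]⟩,
  ⟨[(0, 0), (1, 0), (2, 2), (1, 3), (2, 3)], [(0, 1), (1, 2), (1, 3), (2, 3)]⟩,
  ⟨[(0, 0), (1, 0), (2, 2), (2, 3), (1, 3)], [(0, 1), (1, 2), (1, 3), (2, 3)]⟩]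

def fdT : List ℕ := [0, 1, 2, 0, 4, 5, 4, 7, 8, 9, 10, 11, 12, 13, 14, 9, 1, 17, 12, 5, 10, 17, 7, 13, 11, 25, 26, 8, 28, 29, 25, 28, 32]
def fd (d : ℕ) : ℕ := fdT.getD d 0

def ordF : List (ℕ × List ℕ) := [(3, [9, 10, 11]), (5, [1, 10, 11, 17]), (0, [0, 2, 10, 11, 17]), (6, [0, 2, 5, 11, 12, 17]), (1, [2, 4, 11, 12, 17]), (4, [2, 4, 11, 13, 14, 17]), (7, [2, 4, 7, 11, 14]), (2, [2, 8, 11, 14]), (8, [2, 8, 14, 25, 26]), (9, [2, 14, 25, 26, 28, 29]), (10, [2, 14, 26, 29, 32])]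

def progF : List (List Pat × List ℕ × List ℕ) :=
  ordF.map fun z => (PV, [fd (3 * z.1), fd (3 * z.1 + 1), fd (3 * z.1 + 2)], z.2)

theorem progF_ok : (run progF [⟨[], [], []⟩]).all (covered PF [26, 29, 32, 2, 14]) = true := by
  decide +kernel

def progC (P Q : List Pat) : List (List Pat × List ℕ × List ℕ) :=
  [(P, [0, 1, 2, 3, 4], [0, 1, 2, 3, 4]), (Q, [4, 3, 5, 6, 7], [0, 1, 2, 5, 6, 7]),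
    (PV, [2, 5, 8], [0, 1, 8, 6, 7])]

theorem progFF_ok : (run (progC PF PF) [⟨[], [], []⟩]).all (covered PFF [0, 1, 8, 6, 7]) = true := by
  decide +kernel

theorem progF4_ok : (run (progC PFF PFF) [⟨[], [], []⟩]).all (covered PF4 [0, 1, 8, 6, 7]) = true := by
  decide +kernel

theorem progF5_ok : (run (progC PF PF4) [⟨[], [], []⟩]).all (covered [] [0, 1, 8, 6, 7]) = true := by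
  decide +kernel

end Pool.Agent.SCC
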